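import Mathlib
import Pool.Graph.R_seed8.Y827.HD.Ubs
import Pool.Graph.R_seed8.W218.LF.Gmom

/-! Rough values of a fixed family of linear forms: an upper bound in residue classes. -/

set_option autoImplicit false

namespace Pool.Agent.Helper74.OR

open Finset Filter Topology
open Pool.Agent.Y959.Sv (nu up_sieve)
open Pool.Agent.Helper923.HMertens (mertens_ratio)
open Pool.Agent.Y827.HD (Qf Qf_per nu_eq floor_pow')

open Classical in
/-- the `n ≤ N` at which the forms of `F` have no prime factor `≤ N ^ δ` -/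
noncomputable def Rg (F : Finset (ℤ × ℤ)) (δ : ℝ) (N : ℕ) : Finset ℕ :=
  (Icc 1 N).filter (fun n : ℕ => ∀ f ∈ F, ∀ p : ℕ, p.Prime → Real.log p ≤ δ * Real.log N →
    ¬ (p : ℤ) ∣ f.1 * (n : ℤ) + f.2)

theorem prodE {C1 : ℝ} (hC0 : 0 ≤ C1) (hC1 : ∀ a b : ℕ, 2 ≤ a → a ≤ b →
    |∑ p ∈ (Ioc a b).filter Nat.Prime, (1 : ℝ) / p
      - Real.log (Real.log b / Real.log a)| ≤ C1 / Real.log a) (r L y : ℕ) (hL : 2 ≤ L)
    (hrL : r ≤ L) (hLy : L ≤ y) (E : Finset ℕ) :
    ∏ p ∈ (Ioc L y).filter Nat.Prime \ E, (1 - (r : ℝ) / p) ≤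
      Real.exp (r * (2 * C1 + ∑ p ∈ E, (1 : ℝ) / p)) * (Real.log L / Real.log y) ^ r := by
  have hLr : (2 : ℝ) ≤ L := by exact_mod_cast hL
  have hLyr : (L : ℝ) ≤ y := by exact_mod_cast hLy
  have hlogL : 1 / 2 ≤ Real.log L := by
    have h1 := Real.log_two_gt_d9
    have h2 := Real.log_le_log (by norm_num) hLr
    linarith
  have hlogy : 1 / 2 ≤ Real.log y := hlogL.trans (Real.log_le_log (by linarith) hLyr)
  have h1 : ∏ p ∈ (Ioc L y).filter Nat.Prime \ E, (1 - (r : ℝ) / p) ≤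
      ∏ p ∈ (Ioc L y).filter Nat.Prime \ E, Real.exp (-(r : ℝ) * (1 / p)) := by
    apply Finset.prod_le_prod
    · intro p hp
      rw [Finset.mem_sdiff, mem_filter, mem_Ioc] at hp
      have hp0 : (0 : ℝ) < p := by exact_mod_cast hp.1.2.pos
      have h5 : (r : ℝ) / p ≤ 1 := by
        rw [div_le_one hp0]
        exact_mod_cast hrL.trans hp.1.1.1.le
      linarith
    · intro p _
      have := Real.add_one_le_exp (-((r : ℝ) / p))
      have e : -(r : ℝ) * (1 / p) = -((r : ℝ) / p) := by ring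
      rw [e]
      linarith
  refine h1.trans ?_
  rw [← Real.exp_sum, ← mul_sum]
  have h2 := hC1 L y hL hLy
  have h3 := (abs_le.1 h2).1
  have h4 : C1 / Real.log L ≤ 2 * C1 := by
    rw [div_le_iff₀ (by linarith)]
    nlinarith
  have h6 : ∑ p ∈ (Ioc L y).filter Nat.Prime, (1 : ℝ) / p ≤
      ∑ p ∈ (Ioc L y).filter Nat.Prime \ E, (1 : ℝ) / p + ∑ p ∈ E, (1 : ℝ) / p := by
    have h7 : (Ioc L y).filter Nat.Prime ⊆ ((Ioc L y).filter Nat.Prime \ E) ∪ E := by
      intro p hp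
      by_cases h : p ∈ E
      · exact mem_union_right _ h
      · exact mem_union_left _ (mem_sdiff.2 ⟨hp, h⟩)
    have h8 : Disjoint ((Ioc L y).filter Nat.Prime \ E) E := sdiff_disjoint
    rw [← sum_union h8]
    exact sum_le_sum_of_subset_of_nonneg h7 fun p _ _ => by positivity
  have h7 : Real.log (Real.log y / Real.log L) - (2 * C1 + ∑ p ∈ E, (1 : ℝ) / p) ≤
      ∑ p ∈ (Ioc L y).filter Nat.Prime \ E, (1 : ℝ) / p := by
    linarith
  have hr0 : (0 : ℝ) ≤ r := Nat.cast_nonneg r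
  calc Real.exp (-(r : ℝ) * ∑ p ∈ (Ioc L y).filter Nat.Prime \ E, (1 : ℝ) / p)
      ≤ Real.exp (r * (2 * C1 + ∑ p ∈ E, (1 : ℝ) / p) + r * Real.log (Real.log L / Real.log y)) := by
        apply Real.exp_le_exp.2
        have h8 : Real.log (Real.log y / Real.log L) = -Real.log (Real.log L / Real.log y) := by
          rw [← Real.log_inv, inv_div]
        rw [h8] at h7
        nlinarith [mul_le_mul_of_nonneg_left h7 hr0]
    _ = _ := by
        rw [Real.exp_add, ← Real.log_pow, Real.exp_log (by positivity)]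

theorem prime_dvd_prod_mem {S : Finset ℕ} (hS : ∀ p ∈ S, p.Prime) {p : ℕ} (hp : p.Prime)
    (h : p ∣ ∏ q ∈ S, q) : p ∈ S := by
  obtain ⟨q, hq, hd⟩ := (Prime.dvd_finsetProd_iff hp.prime _).1 h
  rw [Nat.prime_dvd_prime_iff_eq hp (hS q hq)] at hd
  exact hd ▸ hq

/-- **upper bound for rough values in residue classes** -/
theorem cls (F : Finset (ℤ × ℤ)) (hF1 : ∀ f ∈ F, f.1 ≠ 0)
    (hF2 : ∀ f ∈ F, ∀ g ∈ F, f ≠ g → f.1 * g.2 - g.1 * f.2 ≠ 0) (δ : ℝ) (hδ : 0 < δ) :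
    ∃ C : ℝ, 0 < C ∧ ∀ᶠ N : ℕ in atTop, ∀ S : Finset ℕ, (∀ p ∈ S, p.Prime) →
      ((∏ p ∈ S, p : ℕ) : ℝ) ≤ (N : ℝ) ^ (3 / 4 : ℝ) → ∀ r : ℕ,
      (((Rg F δ N).filter (fun n => n ≡ r [MOD ∏ p ∈ S, p])).card : ℝ) ≤
        C * (Real.exp F.card ^ S.card * (N / (((∏ p ∈ S, p : ℕ) : ℝ) * Real.log N ^ F.card))) := by
  classical
  set k : ℕ := F.card with hk
  obtain ⟨K, z0, hK, hup⟩ := up_sieve k
  obtain ⟨C1, hC0, hC1⟩ := mertens_ratio
  have hK0 : (1 : ℝ) ≤ K := by exact_mod_cast hK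
  set κ : ℝ := min δ (1 / (8 * K)) with hκ
  have hκ0 : 0 < κ := lt_min hδ (by positivity)
  set L : ℕ := z0 + k + 2 + ∑ f ∈ F, f.1.natAbs +
    ∑ f ∈ F, ∑ g ∈ F, (f.1 * g.2 - g.1 * f.2).natAbs with hL
  have hL2 : 2 ≤ L := by omega
  have hLr : (2 : ℝ) ≤ L := by exact_mod_cast hL2
  have hlogL : 0 < Real.log L := Real.log_pos (by linarith)
  have hLf : ∀ p : ℕ, p.Prime → L < p → ∀ f ∈ F, ¬ (p : ℤ) ∣ f.1 := by
    intro p hp hpL f hf hd
    have h1 : p ≤ f.1.natAbs := Nat.le_of_dvd (Int.natAbs_pos.2 (hF1 f hf)) (Int.natCast_dvd.1 hd)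
    have h2 : f.1.natAbs ≤ ∑ f ∈ F, f.1.natAbs :=
      Finset.single_le_sum (f := fun f : ℤ × ℤ => f.1.natAbs) (fun _ _ => Nat.zero_le _) hf
    omega
  have hLfg : ∀ p : ℕ, p.Prime → L < p → ∀ f ∈ F, ∀ g ∈ F, f ≠ g →
      ¬ (p : ℤ) ∣ f.1 * g.2 - g.1 * f.2 := by
    intro p hp hpL f hf g hg hne hd
    have h1 : p ≤ (f.1 * g.2 - g.1 * f.2).natAbs :=
      Nat.le_of_dvd (Int.natAbs_pos.2 (hF2 f hf g hg hne)) (Int.natCast_dvd.1 hd)
    have h2 : (f.1 * g.2 - g.1 * f.2).natAbs ≤ ∑ g ∈ F, (f.1 * g.2 - g.1 * f.2).natAbs :=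
      Finset.single_le_sum (f := fun g : ℤ × ℤ => (f.1 * g.2 - g.1 * f.2).natAbs)
        (fun _ _ => Nat.zero_le _) hg
    have h3 : ∑ g ∈ F, (f.1 * g.2 - g.1 * f.2).natAbs ≤
        ∑ f ∈ F, ∑ g ∈ F, (f.1 * g.2 - g.1 * f.2).natAbs :=
      Finset.single_le_sum (f := fun f : ℤ × ℤ => ∑ g ∈ F, (f.1 * g.2 - g.1 * f.2).natAbs)
        (fun _ _ => Nat.zero_le _) hf
    omega
  have tN : Tendsto (fun N : ℕ => (N : ℝ)) atTop atTop := tendsto_natCast_atTop_atTop
  have e4 : ∀ᶠ N : ℕ in atTop, Real.log N ^ k ≤ (N : ℝ) ^ (1 / 8 : ℝ) := by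
    have h1 : (fun x : ℝ => Real.log x ^ k) =o[atTop] (fun x : ℝ => x ^ (1 / 8 : ℝ)) := by
      have := isLittleO_log_rpow_rpow_atTop (k : ℝ) (show (0 : ℝ) < 1 / 8 by norm_num)
      simpa [Real.rpow_natCast] using this
    have h2 := (h1.bound (show (0 : ℝ) < 1 by norm_num))
    filter_upwards [tN.eventually h2, eventually_ge_atTop 1] with X hX hX1
    have hlog : 0 ≤ Real.log (X : ℝ) := Real.log_natCast_nonneg X
    rw [Real.norm_of_nonneg (by positivity), Real.norm_of_nonneg (by positivity), one_mul] at hX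
    exact hX
  have e5 : ∀ᶠ N : ℕ in atTop, (2 : ℝ) ≤ (N : ℝ) ^ (1 / 8 : ℝ) :=
    ((tendsto_rpow_atTop (by norm_num : (0 : ℝ) < 1 / 8)).comp tN).eventually_ge_atTop 2
  set C : ℝ := 2 * (Real.exp (k * (2 * C1)) * (2 * Real.log L / κ) ^ k) + 2 with hC
  refine ⟨C, by positivity, ?_⟩
  filter_upwards [e4, e5, floor_pow' hκ0 (L + 3), eventually_ge_atTop 3] with N hN4 hN5 hNy hN3
  intro S hS hSN r
  obtain ⟨hy1, hy2⟩ := hNy
  set y : ℕ := ⌊(N : ℝ) ^ κ⌋₊ with hy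
  set D : ℕ := ∏ p ∈ S, p with hD
  have hD1 : 1 ≤ D := Nat.pos_of_ne_zero (prod_ne_zero_iff.2 fun p hp => (hS p hp).ne_zero)
  have hDr : (1 : ℝ) ≤ D := by exact_mod_cast hD1
  have hNr : (3 : ℝ) ≤ N := by exact_mod_cast hN3
  have hN0 : (0 : ℝ) < N := by linarith
  have hlogN : 0 < Real.log N := Real.log_pos (by linarith)
  set X : ℕ := N / D with hX
  have hND : (N : ℝ) ^ (1 / 4 : ℝ) ≤ N / D := by
    rw [le_div_iff₀ (by linarith)]
    calc (N : ℝ) ^ (1 / 4 : ℝ) * D ≤ (N : ℝ) ^ (1 / 4 : ℝ) * (N : ℝ) ^ (3 / 4 : ℝ) := by gcongr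
      _ = N := by
        rw [← Real.rpow_add hN0]
        norm_num
  have hq : (N : ℝ) ^ (1 / 4 : ℝ) = (N : ℝ) ^ (1 / 8 : ℝ) * (N : ℝ) ^ (1 / 8 : ℝ) := by
    rw [← Real.rpow_add hN0]; norm_num
  have hXr : (N : ℝ) / D - 1 ≤ X := by
    have h1 : (N : ℝ) < (X + 1) * D := by
      have h0 := Nat.lt_mul_div_succ N hD1
      rw [mul_comm] at h0
      exact_mod_cast h0
    have h2 : (N : ℝ) / D < X + 1 := by
      rw [div_lt_iff₀ (by linarith)]; exact h1
    linarith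
  have hXle : (X : ℝ) ≤ N / D := Nat.cast_div_le
  -- the level
  have hyr : (y : ℝ) ≤ (N : ℝ) ^ κ := Nat.floor_le (by positivity)
  have hLy : L ≤ y := by omega
  have hy3 : 3 ≤ y := by omega
  have hyK : y ^ K ≤ X := by
    have h1 : ((y ^ K : ℕ) : ℝ) ≤ (N : ℝ) ^ (1 / 8 : ℝ) := by
      push_cast
      calc (y : ℝ) ^ K ≤ ((N : ℝ) ^ κ) ^ K := pow_le_pow_left₀ (Nat.cast_nonneg _) hyr K
        _ = (N : ℝ) ^ (κ * K) := by rw [← Real.rpow_natCast, ← Real.rpow_mul hN0.le]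
        _ ≤ (N : ℝ) ^ (1 / 8 : ℝ) := by
          apply Real.rpow_le_rpow_of_exponent_le (by linarith)
          have : κ ≤ 1 / (8 * K) := min_le_right _ _
          calc κ * K ≤ 1 / (8 * K) * K := by gcongr
            _ = 1 / 8 := by field_simp
    have h2 : ((y ^ K : ℕ) : ℝ) ≤ X := by nlinarith
    exact_mod_cast h2
  set r0 : ℕ := r % D with hr0
  set F' : Finset (ℤ × ℤ) := F.image (fun f => (f.1 * (D : ℤ), f.1 * (r0 : ℤ) + f.2)) with hF'
  have hinj : Set.InjOn (fun f : ℤ × ℤ => (f.1 * (D : ℤ), f.1 * (r0 : ℤ) + f.2)) F := by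
    intro f _ g _ h
    have hDi : (D : ℤ) ≠ 0 := by exact_mod_cast (by omega : D ≠ 0)
    obtain ⟨h1, h2⟩ := Prod.ext_iff.1 h
    simp only at h1 h2
    have h3 : f.1 = g.1 := mul_right_cancel₀ hDi h1
    rw [h3] at h2
    exact Prod.ext h3 (by linarith)
  have hcard : F'.card = k := by rw [hF', card_image_of_injOn hinj]
  set P : Finset ℕ := (Ioc L y).filter Nat.Prime \ S with hP
  have hPm : ∀ p ∈ P, p.Prime ∧ L < p ∧ p ≤ y ∧ p ∉ S := by
    intro p hp
    obtain ⟨hp1, hpS⟩ := mem_sdiff.1 hp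
    obtain ⟨hp2, hpp⟩ := mem_filter.1 hp1
    obtain ⟨hp3, hp4⟩ := mem_Ioc.1 hp2
    exact ⟨hpp, hp3, hp4, hpS⟩
  have hnu : ∀ p ∈ P, nu (Qf F') p = k := by
    intro p hp
    obtain ⟨hpp, hp3, hp4, hpS⟩ := hPm p hp
    have hpi : Prime (p : ℤ) := Nat.prime_iff_prime_int.1 hpp
    have hpD : ¬ (p : ℤ) ∣ (D : ℤ) := by
      intro h
      exact hpS (prime_dvd_prod_mem hS hpp (by exact_mod_cast h))
    rw [← hcard]
    apply nu_eq F' hpp
    · intro f' hf' hd
      obtain ⟨f, hf, rfl⟩ := mem_image.1 hf'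
      rcases hpi.dvd_or_dvd hd with h | h
      · exact hLf p hpp hp3 f hf h
      · exact hpD h
    · intro f' hf' g' hg' hne hd
      obtain ⟨f, hf, rfl⟩ := mem_image.1 hf'
      obtain ⟨g, hg, rfl⟩ := mem_image.1 hg'
      have hfg : f ≠ g := fun h => hne (by rw [h])
      have e : f.1 * (D : ℤ) * (g.1 * (r0 : ℤ) + g.2) - g.1 * (D : ℤ) * (f.1 * (r0 : ℤ) + f.2) =
          (D : ℤ) * (f.1 * g.2 - g.1 * f.2) := by ring
      simp only at hd
      rw [e] at hd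
      rcases hpi.dvd_or_dvd hd with h | h
      · exact hpD h
      · exact hLfg p hpp hp3 f hf g hg hfg h
  have key := hup y X hy3 hyK (Qf F') (Qf_per F') P (by
    intro p hp
    obtain ⟨hpp, hp3, hp4, hpS⟩ := hPm p hp
    exact ⟨hpp, by omega, hp4, (hnu p hp).le⟩)
  have hprod : ∏ p ∈ P, (1 - (nu (Qf F') p : ℝ) / p) = ∏ p ∈ P, (1 - (k : ℝ) / p) :=
    prod_congr rfl fun p hp => by rw [hnu p hp]
  rw [hprod] at key
  have hprod2 := prodE hC0 hC1 k L y hL2 (by omega) hLy S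
  have hlogy : Real.log y ≤ δ * Real.log N := by
    have hy0 : (0 : ℝ) < y := by exact_mod_cast (by omega : 0 < y)
    calc Real.log y ≤ Real.log ((N : ℝ) ^ κ) := Real.log_le_log hy0 hyr
      _ = κ * Real.log N := Real.log_rpow hN0 _
      _ ≤ δ * Real.log N := mul_le_mul_of_nonneg_right (min_le_left _ _) hlogN.le
  -- the set
  have hset : (((Rg F δ N).filter (fun n => n ≡ r [MOD D])).card : ℝ) ≤
      (((Icc 1 X).filter (fun n : ℕ => ∀ p ∈ P, ¬ Qf F' p n)).card : ℝ) + 1 := by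
    have h1 : ((Rg F δ N).filter (fun n => n ≡ r [MOD D])).card ≤
        (insert 0 ((Icc 1 X).filter (fun n : ℕ => ∀ p ∈ P, ¬ Qf F' p n))).card := by
      apply card_le_card_of_injOn (fun n => n / D)
      · intro n hn
        rw [mem_coe, mem_filter] at hn
        obtain ⟨hn1, hn2⟩ := hn
        unfold Rg at hn1
        rw [mem_filter, mem_Icc] at hn1
        rw [mem_coe, mem_insert, mem_filter, mem_Icc]
        rcases Nat.eq_zero_or_pos (n / D) with h0 | h0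
        · exact Or.inl h0
        · refine Or.inr ⟨⟨h0, Nat.div_le_div_right hn1.1.2⟩, ?_⟩
          intro p hp
          rintro ⟨f', hf', hd⟩
          obtain ⟨f, hf, rfl⟩ := mem_image.1 hf'
          obtain ⟨hpp, hp3, hp4, hpS⟩ := hPm p hp
          have hp0 : (0 : ℝ) < p := by exact_mod_cast hpp.pos
          refine hn1.2 f hf p hpp ((Real.log_le_log hp0 (by exact_mod_cast hp4)).trans hlogy) ?_
          have hn3 : (n : ℤ) = D * ((n / D : ℕ) : ℤ) + r0 := by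
            have h := Nat.div_add_mod n D
            have h2 : n % D = r0 := hn2
            rw [h2] at h
            exact_mod_cast h.symm
          rw [hn3]
          have e : f.1 * ((D : ℤ) * ((n / D : ℕ) : ℤ) + r0) + f.2 =
              f.1 * D * ((n / D : ℕ) : ℤ) + (f.1 * r0 + f.2) := by ring
          rw [e]
          exact hd
      · intro n hn m hm hnm
        rw [mem_coe, mem_filter] at hn hm
        have h2 : n % D = m % D := hn.2.trans hm.2.symm
        have h3 : n / D = m / D := hnm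
        rw [← Nat.div_add_mod n D, ← Nat.div_add_mod m D, h2, h3]
    have h2 := h1.trans (card_insert_le _ _)
    exact_mod_cast h2
  -- the bound
  have hw0 : (0 : ℝ) ≤ N / D := by positivity
  set w : ℝ := √((N : ℝ) / D) with hw
  have hww : w * w = N / D := Real.mul_self_sqrt hw0
  have hwu : (N : ℝ) ^ (1 / 8 : ℝ) ≤ w := by
    apply Real.le_sqrt_of_sq_le
    rw [sq, ← hq]
    exact hND
  have hw2 : 1 ≤ w := by linarith
  have hlk : 0 < Real.log N ^ k := by positivity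
  have hwl : w ≤ N / (D * Real.log N ^ k) := by
    rw [← div_div, le_div_iff₀ hlk, ← hww]
    exact mul_le_mul_of_nonneg_left (hN4.trans hwu) (by linarith)
  have hsX : √(X : ℝ) ≤ w := Real.sqrt_le_sqrt hXle
  have hE1 : (1 : ℝ) ≤ Real.exp k ^ S.card := one_le_pow₀ (Real.one_le_exp (Nat.cast_nonneg _))
  set Q : ℝ := (N : ℝ) / (D * Real.log N ^ k) with hQ
  have hQ0 : 0 ≤ Q := by positivity
  have hprod3 : ∏ p ∈ P, (1 - (k : ℝ) / p) ≤ Real.exp k ^ S.card *
      (Real.exp (k * (2 * C1)) * (2 * Real.log L / κ) ^ k) / Real.log N ^ k := by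
    refine hprod2.trans ?_
    have h1 : Real.exp (k * (2 * C1 + ∑ p ∈ S, (1 : ℝ) / p)) ≤
        Real.exp (k * (2 * C1)) * Real.exp k ^ S.card := by
      rw [← Real.exp_nat_mul, ← Real.exp_add]
      apply Real.exp_le_exp.2
      have h2 : ∑ p ∈ S, (1 : ℝ) / p ≤ S.card := by
        calc ∑ p ∈ S, (1 : ℝ) / p ≤ ∑ _p ∈ S, (1 : ℝ) := by
              apply sum_le_sum
              intro p hp
              have : (1 : ℝ) ≤ p := by exact_mod_cast (hS p hp).one_le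
              rw [div_le_one (by linarith)]
              exact this
          _ = S.card := by simp
      have h3 : (0 : ℝ) ≤ k := Nat.cast_nonneg k
      have h4 := mul_le_mul_of_nonneg_left h2 h3
      linarith
    have h2 : (Real.log L / Real.log y) ^ k ≤ (2 * Real.log L / κ) ^ k / Real.log N ^ k := by
      rw [← div_pow]
      apply pow_le_pow_left₀
      · have : 0 ≤ Real.log y := Real.log_natCast_nonneg y
        positivity
      · have h3 : 0 < κ / 2 * Real.log N := by positivity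
        rw [div_div, div_le_div_iff₀ (by linarith) (by positivity)]
        nlinarith [mul_le_mul_of_nonneg_left hy2 hlogL.le]
    calc Real.exp (k * (2 * C1 + ∑ p ∈ S, (1 : ℝ) / p)) * (Real.log L / Real.log y) ^ k
        ≤ (Real.exp (k * (2 * C1)) * Real.exp k ^ S.card) *
          ((2 * Real.log L / κ) ^ k / Real.log N ^ k) := by gcongr
      _ = _ := by ring
  have hmain : (X : ℝ) * ∏ p ∈ P, (1 - (k : ℝ) / p) ≤
      Real.exp k ^ S.card * (Real.exp (k * (2 * C1)) * (2 * Real.log L / κ) ^ k) * Q := by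
    calc (X : ℝ) * ∏ p ∈ P, (1 - (k : ℝ) / p) ≤ (X : ℝ) * (Real.exp k ^ S.card *
          (Real.exp (k * (2 * C1)) * (2 * Real.log L / κ) ^ k) / Real.log N ^ k) := by gcongr
      _ ≤ (N / D) * (Real.exp k ^ S.card *
          (Real.exp (k * (2 * C1)) * (2 * Real.log L / κ) ^ k) / Real.log N ^ k) := by gcongr
      _ = _ := by rw [hQ]; field_simp
  have hQE : Q ≤ Real.exp k ^ S.card * Q := le_mul_of_one_le_left hQ0 hE1
  calc (((Rg F δ N).filter (fun n => n ≡ r [MOD D])).card : ℝ)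
      ≤ 2 * (X * ∏ p ∈ P, (1 - (k : ℝ) / p)) + √(X : ℝ) + 1 := by linarith
    _ ≤ 2 * (Real.exp k ^ S.card * (Real.exp (k * (2 * C1)) * (2 * Real.log L / κ) ^ k) * Q) +
        2 * (Real.exp k ^ S.card * Q) := by linarith
    _ = C * (Real.exp k ^ S.card * Q) := by rw [hC]; ring

end Pool.Agent.Helper74.OR
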