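import Mathlib
import Pool.Agent.Helper74.OR.Cls

/-! Moments of `n / φ(n)` over the rough values of a fixed family of linear forms. -/

set_option autoImplicit false

namespace Pool.Agent.Helper74.OR

open Finset Filter Topology
open Pool.Agent.Erdos456 Pool.Agent.Erdos456.Mert Pool.Agent.W218.HF Pool.Agent.W218.LF

theorem card_same (A : Finset ℕ) (S : Finset ℕ) (hS : ∀ p ∈ S, p.Prime) (P : ℕ → ℕ → Prop)
    (hP : ∀ p ∈ S, ∀ n n', P p n → P p n' → n ≡ n' [MOD p]) (B : ℝ) (hB : 0 ≤ B)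
    (h : ∀ r : ℕ, (((A.filter (fun n => n ≡ r [MOD ∏ p ∈ S, p])).card : ℕ) : ℝ) ≤ B) [DecidablePred fun n => ∀ p ∈ S, P p n] :
    (((A.filter (fun n => ∀ p ∈ S, P p n)).card : ℕ) : ℝ) ≤ B := by
  classical
  rcases (A.filter (fun n => ∀ p ∈ S, P p n)).eq_empty_or_nonempty with h0 | ⟨n₀, h0⟩
  · rw [h0]; simpa using hB
  · refine le_trans ?_ (h n₀)
    rw [Nat.cast_le]
    apply card_le_card
    intro n hn
    rw [mem_filter] at hn h0 ⊢
    refine ⟨hn.1, ?_⟩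
    rw [Nat.modEq_iff_dvd, Int.natCast_dvd]
    apply Finset.prod_primes_dvd
    · intro p hp; exact (hS p hp).prime
    · intro p hp
      have h3 := hP p hp n n₀ (hn.2 p hp) (h0.2 p hp)
      exact Int.natCast_dvd.1 ((Nat.modEq_iff_dvd).1 h3)

/-- **moments over rough values** -/
theorem rmom (F : Finset (ℤ × ℤ)) (hF1 : ∀ f ∈ F, f.1 ≠ 0)
    (hF2 : ∀ f ∈ F, ∀ g ∈ F, f ≠ g → f.1 * g.2 - g.1 * f.2 ≠ 0) (δ : ℝ) (hδ : 0 < δ) (m : ℕ)
    (hm : 1 ≤ m) :
    ∃ C : ℝ, 0 < C ∧ ∀ᶠ N : ℕ in atTop, ∀ (G : ℕ → ℤ) (g : ℕ), 0 < g →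
      (∀ n ∈ Icc 1 N, (((G n).natAbs : ℕ) : ℝ) ≤ (N : ℝ) ^ 2) →
      (∀ p : ℕ, p.Prime → ¬ p ∣ g → ∀ n n' : ℕ, p ∣ (G n).natAbs → p ∣ (G n').natAbs →
        n ≡ n' [MOD p]) →
      ∑ n ∈ Rg F δ N, GG (G n).natAbs ^ m ≤ C * GG g ^ m * (N / Real.log N ^ F.card) := by
  classical
  obtain ⟨C, hC, hcls⟩ := cls F hF1 hF2 δ hδ
  set h : ℝ := 2 ^ (m + 1) * Real.exp F.card with hh
  have hh0 : 0 ≤ h := by positivity
  refine ⟨Real.exp 6 ^ m * (C * Real.exp (2 * h)), by positivity, ?_⟩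
  have tN : Tendsto (fun N : ℕ => (N : ℝ)) atTop atTop := tendsto_natCast_atTop_atTop
  have e5 : ∀ᶠ N : ℕ in atTop, (4 : ℝ) ≤ (N : ℝ) ^ (1 / 20 : ℝ) :=
    ((tendsto_rpow_atTop (by norm_num : (0 : ℝ) < 1 / 20)).comp tN).eventually_ge_atTop 4
  filter_upwards [hcls, e5, eventually_ge_atTop 3] with N hN hN5 hN3 G g hg0 hbd hG
  have hNr : (3 : ℝ) ≤ N := by exact_mod_cast hN3
  have hN0 : (0 : ℝ) < N := by linarith
  have hlogN : 0 < Real.log N := Real.log_pos (by linarith)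
  set Z : ℕ := ⌈Real.log N / 2⌉₊ with hZ
  have hZ1 : 1 ≤ Z := Nat.ceil_pos.2 (by positivity)
  have hZle : Real.log N / 2 ≤ Z := Nat.le_ceil _
  have hZlt : (Z : ℝ) < Real.log N / 2 + 1 := Nat.ceil_lt_add_one (by positivity)
  have hexpZ : (N : ℝ) ^ 2 ≤ Real.exp (4 * Z) := by
    have h1 : (N : ℝ) ^ 2 = Real.exp (2 * Real.log N) := by
      rw [show (2 : ℝ) * Real.log N = ((2 : ℕ) : ℝ) * Real.log N by norm_num, Real.exp_nat_mul,
        Real.exp_log hN0]
    rw [h1]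
    apply Real.exp_le_exp.2
    linarith
  set W : Finset ℕ := (PP Z).filter (fun p => ¬ p ∣ g) with hW
  have hWp : ∀ p ∈ W, p.Prime := fun p hp => by
    rw [hW, mem_filter] at hp
    unfold PP at hp
    rw [mem_filter] at hp; exact hp.1.2
  set w : Finset ℕ → ℝ := fun S => ∏ p ∈ S, ((2 : ℝ) ^ (m + 1) / (p : ℝ)) with hw
  have hw0 : ∀ S, 0 ≤ w S := fun S => prod_nonneg fun p _ => by positivity
  -- pointwise bound
  have hpt : ∀ t ∈ Icc 1 N, (GG (G t).natAbs) ^ m ≤ Real.exp 6 ^ m * (GG g ^ m *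
      ∑ S ∈ W.powerset, if (∀ p ∈ S, p ∣ (G t).natAbs) then w S else 0) := by
    intro t ht
    set n := (G t).natAbs with hn
    have hR0 : 0 ≤ ∑ S ∈ W.powerset, (if (∀ p ∈ S, p ∣ n) then w S else 0) :=
      sum_nonneg fun S _ => by split_ifs; exacts [hw0 S, le_rfl]
    have hGgm : 0 ≤ GG g ^ m := pow_nonneg (GG_nonneg g) m
    rcases Nat.eq_zero_or_pos n with h0 | h0
    · rw [h0] at hR0 ⊢
      rw [GG_zero, zero_pow (by omega)]
      positivity
    have h1 := GG_le_small h0 hZ1 ((hbd t ht).trans hexpZ)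
    set Fs := (PP Z).filter (fun p => p ∣ n) with hFs
    have hFp : ∀ p ∈ Fs, p.Prime := fun p hp => by
      rw [hFs, mem_filter] at hp
      unfold PP at hp
      rw [mem_filter] at hp; exact hp.1.2
    have hsp := Finset.prod_filter_mul_prod_filter_not Fs (fun p => p ∣ g)
      (fun p : ℕ => (1 - (p : ℝ)⁻¹)⁻¹)
    have h2 : ∏ p ∈ Fs.filter (fun p => p ∣ g), (1 - (p : ℝ)⁻¹)⁻¹ ≤ GG g := by
      rw [GG_eq_prod hg0]
      apply Finset.prod_le_prod_of_subset_of_one_le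
      · intro p hp
        rw [mem_filter] at hp
        rw [Nat.mem_primeFactors]
        exact ⟨hFp p hp.1, hp.2, hg0.ne'⟩
      · intro p hp
        rw [mem_filter] at hp
        exact zero_le_one.trans (factor_ge_one (hFp p hp.1))
      · intro p hp _
        exact factor_ge_one (Nat.prime_of_mem_primeFactors hp)
    set V := Fs.filter (fun p => ¬ p ∣ g) with hV
    have hV0 : 0 ≤ ∏ p ∈ V, (1 - (p : ℝ)⁻¹)⁻¹ := prod_nonneg fun p hp => by
      rw [hV, mem_filter] at hp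
      exact zero_le_one.trans (factor_ge_one (hFp p hp.1))
    have h3 : GG n ≤ Real.exp 6 * (GG g * ∏ p ∈ V, (1 - (p : ℝ)⁻¹)⁻¹) := by
      refine h1.trans ?_
      rw [← hsp]
      gcongr
    have h4 : (∏ p ∈ V, (1 - (p : ℝ)⁻¹)⁻¹) ^ m ≤ ∏ p ∈ V, (1 + 2 ^ (m + 1) / (p : ℝ)) := by
      rw [← prod_pow]
      apply Finset.prod_le_prod
      · intro p hp
        have : 0 ≤ (1 - (p : ℝ)⁻¹)⁻¹ := by
          rw [hV, mem_filter] at hp
          exact zero_le_one.trans (factor_ge_one (hFp p hp.1))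
        positivity
      · intro p hp
        rw [hV, mem_filter] at hp
        exact pow_factor m (hFp p hp.1)
    have h5 : ∏ p ∈ V, (1 + 2 ^ (m + 1) / (p : ℝ)) =
        ∑ S ∈ W.powerset, if (∀ p ∈ S, p ∣ n) then w S else 0 := by
      rw [prod_one_add, ← sum_filter]
      apply sum_congr _ fun _ _ => rfl
      ext S
      simp only [mem_powerset, mem_filter, subset_iff, hV, hW, hFs]
      constructor
      · intro h
        exact ⟨fun p hp => ⟨(h hp).1.1, (h hp).2⟩, fun p hp => (h hp).1.2⟩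
      · rintro ⟨h, h'⟩ p hp
        exact ⟨⟨(h hp).1, h' p hp⟩, (h hp).2⟩
    rw [← h5]
    calc GG n ^ m ≤ (Real.exp 6 * (GG g * ∏ p ∈ V, (1 - (p : ℝ)⁻¹)⁻¹)) ^ m :=
          pow_le_pow_left₀ (GG_nonneg n) h3 m
      _ = Real.exp 6 ^ m * (GG g ^ m * (∏ p ∈ V, (1 - (p : ℝ)⁻¹)⁻¹) ^ m) := by
          rw [mul_pow, mul_pow]
      _ ≤ _ := by
          gcongr
  have hsubR : Rg F δ N ⊆ Icc 1 N := by
    unfold Rg; exact filter_subset _ _
  refine (sum_le_sum fun t ht => hpt t (hsubR ht)).trans ?_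
  rw [← mul_sum, ← mul_sum, sum_comm]
  set M : ℝ := N / Real.log N ^ F.card with hM
  have hM0 : 0 ≤ M := by positivity
  -- the size of the moduli
  have hSN : ∀ S ∈ W.powerset, ((∏ p ∈ S, p : ℕ) : ℝ) ≤ (N : ℝ) ^ (3 / 4 : ℝ) := by
    intro S hS
    rw [mem_powerset] at hS
    have h1 : ∏ p ∈ S, p ≤ primorial Z := by
      unfold primorial
      apply Finset.prod_le_prod_of_subset_of_one_le'
      · intro p hp
        have := hS hp
        rw [hW, mem_filter] at this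
        have h2 := this.1
        unfold PP at h2
        rw [mem_filter, mem_Icc] at h2
        rw [mem_filter, mem_range]
        exact ⟨by omega, h2.2⟩
      · intro p hp _
        exact (mem_filter.1 hp).2.one_le
    have h2 : ((∏ p ∈ S, p : ℕ) : ℝ) ≤ ((4 ^ Z : ℕ) : ℝ) := by
      exact_mod_cast h1.trans (primorial_le_four_pow Z)
    refine h2.trans ?_
    push_cast
    have h3 : (4 : ℝ) ^ Z = Real.exp (Z * (2 * Real.log 2)) := by
      rw [Real.exp_nat_mul, show (2 : ℝ) * Real.log 2 = ((2 : ℕ) : ℝ) * Real.log 2 by norm_num,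
        Real.exp_nat_mul, Real.exp_log (by norm_num)]
      norm_num
    rw [h3]
    have hl2 := Real.log_two_lt_d9
    have hl2' := Real.log_two_gt_d9
    calc Real.exp (Z * (2 * Real.log 2)) ≤ Real.exp (7 / 10 * Real.log N + 2 * Real.log 2) := by
          apply Real.exp_le_exp.2
          nlinarith
      _ = (N : ℝ) ^ (7 / 10 : ℝ) * 4 := by
          rw [Real.exp_add, Real.rpow_def_of_pos hN0, mul_comm (Real.log (N : ℝ))]
          congr 1
          rw [show (2 : ℝ) * Real.log 2 = ((2 : ℕ) : ℝ) * Real.log 2 by norm_num,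
            Real.exp_nat_mul, Real.exp_log (by norm_num)]
          norm_num
      _ ≤ (N : ℝ) ^ (7 / 10 : ℝ) * (N : ℝ) ^ (1 / 20 : ℝ) := by gcongr
      _ = (N : ℝ) ^ (3 / 4 : ℝ) := by
          rw [← Real.rpow_add hN0]; norm_num
  have hin : ∀ S ∈ W.powerset, ∑ t ∈ Rg F δ N,
      (if (∀ p ∈ S, p ∣ (G t).natAbs) then w S else 0) ≤
      C * M * ∏ p ∈ S, (h / (p : ℝ) ^ 2) := by
    intro S hS
    have hS' := mem_powerset.1 hS
    rw [← sum_filter, sum_const, nsmul_eq_mul]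
    have hSp : ∀ p ∈ S, p.Prime := fun p hp => hWp p (hS' hp)
    have h1 := card_same (Rg F δ N) S hSp (fun p n => p ∣ (G n).natAbs) (by
      intro p hp n n' h1 h2
      have hpW := hS' hp
      rw [hW, mem_filter] at hpW
      exact hG p (hSp p hp) hpW.2 n n' h1 h2)
      (C * (Real.exp F.card ^ S.card * (N / (((∏ p ∈ S, p : ℕ) : ℝ) * Real.log N ^ F.card))))
      (by positivity) (fun r => hN S hSp (hSN S hS) r)
    have h2 := mul_le_mul_of_nonneg_right h1 (hw0 S)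
    refine h2.trans (le_of_eq ?_)
    have e1 : ∏ p ∈ S, (h / (p : ℝ) ^ 2) = w S * Real.exp F.card ^ S.card *
        (1 / ((∏ p ∈ S, p : ℕ) : ℝ)) := by
      rw [hw]
      push_cast
      rw [← prod_const, ← prod_mul_distrib, one_div, ← prod_inv_distrib, ← prod_mul_distrib]
      apply prod_congr rfl
      intro p hp
      have hp0 : (p : ℝ) ≠ 0 := by exact_mod_cast (hSp p hp).ne_zero
      rw [hh]
      field_simp
    rw [e1, hM]
    field_simp
  have hsum := sum_le_sum hin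
  rw [← mul_sum] at hsum
  have e1 : ∑ S ∈ W.powerset, ∏ p ∈ S, (h / (p : ℝ) ^ 2) = ∏ p ∈ W, (1 + h / (p : ℝ) ^ 2) :=
    (prod_one_add _).symm
  rw [e1] at hsum
  have h1 : ∏ p ∈ W, (1 + h / (p : ℝ) ^ 2) ≤ Real.exp (2 * h) := by
    refine (prod_exp_le W _ fun p _ => by positivity).trans (Real.exp_le_exp.2 ?_)
    have h3 := sum_inv_sq_PP Z
    have h4 : ∑ p ∈ W, h / (p : ℝ) ^ 2 ≤ ∑ p ∈ PP Z, h / (p : ℝ) ^ 2 :=
      sum_le_sum_of_subset_of_nonneg (filter_subset _ _) fun p _ _ => by positivity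
    have e3 : ∑ p ∈ PP Z, h / (p : ℝ) ^ 2 = (h / 126) * ∑ p ∈ PP Z, 126 / (p : ℝ) ^ 2 := by
      rw [mul_sum]; apply sum_congr rfl; intro p _; ring
    rw [e3] at h4
    have h5 : (h / 126) * ∑ p ∈ PP Z, 126 / (p : ℝ) ^ 2 ≤ (h / 126) * 252 := by gcongr
    linarith
  have hGg := GG_nonneg g
  calc Real.exp 6 ^ m * (GG g ^ m * ∑ S ∈ W.powerset, ∑ t ∈ Rg F δ N,
        (if (∀ p ∈ S, p ∣ (G t).natAbs) then w S else 0))
      ≤ Real.exp 6 ^ m * (GG g ^ m * (C * M * Real.exp (2 * h))) := by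
        gcongr
        exact hsum.trans (by gcongr)
    _ = _ := by ring

end Pool.Agent.Helper74.OR
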