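import Mathlib
import Pool.Graph.R_seed8.W218.PF.Block3

/-! Primes in short progressions to small moduli: a lower bound for one linear coefficient, and an upper bound
for two linear forms. -/

set_option autoImplicit false

namespace Pool.Agent.Helper74.OR

open Finset Filter Topology
open Pool.Agent.Erdos456 Pool.Agent.Erdos456.Mert Pool.Agent.W218.HF Pool.Agent.W218.LF
open Pool.Agent.W218.PF H343E

/-- **the lower bound** -/
theorem low (A : ℕ) : ∃ B0 : ℕ, ∀ B : ℕ, B0 ≤ B → ∀ (t : ℕ) (G : ℤ), 1 ≤ t →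
    (t : ℝ) ≤ Real.log B ^ A → 4 * G.natAbs ≤ B → IsCoprime (t : ℤ) G →
    (1 / 8 : ℝ) * (B / Real.log B) ≤ ∑ b ∈ Ioc B (2 * B), pr (G + b * t) := by
  classical
  obtain ⟨K, X0, hBV⟩ := bvR (A + 2)
  obtain ⟨x₀, hpnt⟩ := Pool.Agent.H373R2.SH.pnt_windowB 4 (by norm_num) (1 / 4) (by norm_num)
  have tB : Tendsto (fun B : ℕ => (B : ℝ)) atTop atTop := tendsto_natCast_atTop_atTop
  have tL : Tendsto (fun B : ℕ => Real.log (B : ℝ)) atTop atTop := Real.tendsto_log_atTop.comp tB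
  have e1 : ∀ᶠ B : ℕ in atTop, Real.log B ^ A * (3 * Real.log B) ^ K ≤ 3 / 4 * B := by
    have h1 := (Real.isLittleO_pow_log_id_atTop (n := A + K)).bound
      (show (0 : ℝ) < 1 / (4 * 3 ^ K) by positivity)
    filter_upwards [tB.eventually h1, eventually_ge_atTop 3] with B hB hB3
    have hlog : 0 ≤ Real.log (B : ℝ) := Real.log_natCast_nonneg B
    have hB0 : (0 : ℝ) ≤ B := Nat.cast_nonneg B
    rw [Real.norm_of_nonneg (by positivity), id, Real.norm_of_nonneg hB0] at hB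
    calc Real.log B ^ A * (3 * Real.log B) ^ K = 3 ^ K * Real.log B ^ (A + K) := by
          rw [mul_pow, pow_add]; ring
      _ ≤ 3 ^ K * (1 / (4 * 3 ^ K) * B) := by gcongr
      _ = 1 / 4 * B := by field_simp
      _ ≤ 3 / 4 * B := by linarith
  have e1' : ∀ᶠ B : ℕ in atTop, Real.log B ^ A ≤ B := by
    have h1 := (Real.isLittleO_pow_log_id_atTop (n := A)).bound (show (0 : ℝ) < 1 by positivity)
    filter_upwards [tB.eventually h1, eventually_ge_atTop 3] with B hB hB3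
    have hlog : 0 ≤ Real.log (B : ℝ) := Real.log_natCast_nonneg B
    have hB0 : (0 : ℝ) ≤ B := Nat.cast_nonneg B
    rw [Real.norm_of_nonneg (by positivity), id, Real.norm_of_nonneg hB0] at hB
    linarith
  have e2 : ∀ᶠ B : ℕ in atTop, 48 * 2 ^ (A + 2) ≤ Real.log B := tL.eventually_ge_atTop _
  have e3 : ∀ᶠ B : ℕ in atTop, 1 ≤ Real.log B := tL.eventually_ge_atTop _
  obtain ⟨B0, hB0⟩ := eventually_atTop.1 (((e1.and e1').and (e2.and e3)).and
    (eventually_ge_atTop (2 * X0 + x₀ + 16)))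
  refine ⟨B0, ?_⟩
  intro B hB t G ht1 htA hG hc
  obtain ⟨⟨⟨h1, h1'⟩, h2, h3⟩, h4⟩ := hB0 B hB
  have hBr : (16 : ℝ) ≤ B := by exact_mod_cast (by omega : 16 ≤ B)
  have htr : (1 : ℝ) ≤ t := by exact_mod_cast ht1
  have htB : (t : ℝ) ≤ B := htA.trans h1'
  have hGr : 4 * |(G : ℝ)| ≤ B := by
    have e : ((G.natAbs : ℕ) : ℝ) = |(G : ℝ)| := by rw [Nat.cast_natAbs]; push_cast; rfl
    rw [← e]; exact_mod_cast hG
  obtain ⟨hG1, hG2⟩ := abs_le.1 (show |(G : ℝ)| ≤ B / 4 by linarith)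
  have hBt : (B : ℝ) ≤ B * t := le_mul_of_one_le_right (by linarith) htr
  have hti : (1 : ℤ) ≤ t := by exact_mod_cast ht1
  have hGi : 4 * |G| ≤ (B : ℤ) := by rw [Int.abs_eq_natAbs]; exact_mod_cast hG
  have hGi1 := neg_abs_le G
  have hBti : (B : ℤ) ≤ B * t := le_mul_of_one_le_right (Nat.cast_nonneg _) hti
  set X₁ : ℕ := (G + B * t).toNat with hX₁
  have hX1i : (X₁ : ℤ) = G + B * t := Int.toNat_of_nonneg (by linarith)
  have hX1r : (X₁ : ℝ) = G + B * t := by exact_mod_cast hX1i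
  set X₂ : ℕ := B * t + X₁ with hX₂
  have hX2i : (X₂ : ℤ) = G + ((2 * B : ℕ) : ℤ) * t := by rw [hX₂]; push_cast; rw [hX1i]; ring
  have hX2r : (X₂ : ℝ) = G + 2 * (B * t) := by rw [hX₂]; push_cast; rw [hX1r]; ring
  have hX12 : X₁ ≤ X₂ := Nat.le_add_left _ _
  have hlogB : 0 < Real.log B := by linarith
  -- sizes
  have hXlow1 : (3 / 4 : ℝ) * (B * t) ≤ X₁ := by rw [hX1r]; linarith
  have hXlow2 : (3 / 4 : ℝ) * (B * t) ≤ X₂ := by rw [hX2r]; linarith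
  have hXup1 : (X₁ : ℝ) ≤ 3 * (B * t) := by rw [hX1r]; linarith
  have hXup2 : (X₂ : ℝ) ≤ 3 * (B * t) := by rw [hX2r]; linarith
  have hlogX : ∀ X : ℕ, (3 / 4 : ℝ) * (B * t) ≤ X → (X : ℝ) ≤ 3 * (B * t) →
      Real.log B / 2 ≤ Real.log X ∧ Real.log X ≤ 3 * Real.log B := by
    intro X h5 h6
    have h7 : (B : ℝ) ≤ (X : ℝ) ^ 2 := by nlinarith
    have h8 := Real.log_le_log (by linarith) h7
    rw [Real.log_pow] at h8
    push_cast at h8
    have h9 : (X : ℝ) ≤ (B : ℝ) ^ 3 := by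
      have h10 : (B : ℝ) * t ≤ B * B := mul_le_mul_of_nonneg_left htB (by linarith)
      calc (X : ℝ) ≤ 3 * (B * B) := by linarith
        _ ≤ B * (B * B) := mul_le_mul_of_nonneg_right (by linarith) (by positivity)
        _ = _ := by ring
    have h10 := Real.log_le_log (by linarith) h9
    rw [Real.log_pow] at h10
    push_cast at h10
    exact ⟨by linarith, h10⟩
  have hlev : ∀ X : ℕ, (3 / 4 : ℝ) * (B * t) ≤ X → (X : ℝ) ≤ 3 * (B * t) →
      (t : ℝ) ^ 2 ≤ X / Real.log X ^ K := by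
    intro X h5 h6
    obtain ⟨h7, h8⟩ := hlogX X h5 h6
    have h9 : 0 < Real.log X := by linarith
    rw [le_div_iff₀ (by positivity)]
    calc (t : ℝ) ^ 2 * Real.log X ^ K ≤ t ^ 2 * (3 * Real.log B) ^ K := by gcongr
      _ = t * (t * (3 * Real.log B) ^ K) := by ring
      _ ≤ t * (Real.log B ^ A * (3 * Real.log B) ^ K) := by gcongr
      _ ≤ t * (3 / 4 * B) := by gcongr
      _ = 3 / 4 * (B * t) := by ring
      _ ≤ X := h5
  have hlev1 : ∀ X : ℕ, (3 / 4 : ℝ) * (B * t) ≤ X → (X : ℝ) ≤ 3 * (B * t) →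
      (t : ℝ) ≤ X / Real.log X ^ K := by
    intro X h5 h6
    refine le_trans ?_ (hlev X h5 h6)
    have : t ≤ t ^ 2 := Nat.le_self_pow (by norm_num) t
    exact_mod_cast this
  have hErr : ∀ X : ℕ, (3 / 4 : ℝ) * (B * t) ≤ X → (X : ℝ) ≤ 3 * (B * t) →
      (X : ℝ) / Real.log X ^ (A + 2) ≤ 1 / 16 * (B / Real.log B) := by
    intro X h5 h6
    obtain ⟨h7, h8⟩ := hlogX X h5 h6
    have h9 : 0 < Real.log B / 2 := by linarith
    calc (X : ℝ) / Real.log X ^ (A + 2) ≤ (3 * (B * t)) / (Real.log B / 2) ^ (A + 2) := by gcongr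
      _ ≤ (3 * (B * Real.log B ^ A)) / (Real.log B / 2) ^ (A + 2) := by gcongr
      _ = (48 * 2 ^ (A + 2)) / Real.log B * (1 / 16 * (B / Real.log B)) := by
          rw [div_pow, pow_add (Real.log (B : ℝ)) A 2]
          field_simp
          ring
      _ ≤ 1 * (1 / 16 * (B / Real.log B)) := by
          gcongr
          rw [div_le_one hlogB]
          exact h2
      _ = _ := by ring
  have hX0X1 : X0 ≤ X₁ := by
    have h5 : (2 * X0 : ℝ) ≤ B := by exact_mod_cast (by omega : 2 * X0 ≤ B)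
    have h6 : (0 : ℝ) ≤ X0 := Nat.cast_nonneg _
    have : (X0 : ℝ) ≤ X₁ := by linarith
    exact_mod_cast this
  have E1 := hBV X₁ hX0X1 t (hlev1 X₁ hXlow1 hXup1) (hlev X₁ hXlow1 hXup1) (fun _ => G) {t}
    (by intro s hs; rw [mem_singleton] at hs; subst hs; exact mem_Icc.2 ⟨ht1, le_rfl⟩)
    (by intro s hs; rw [mem_singleton] at hs; subst hs; exact hc)
  have E2 := hBV X₂ (hX0X1.trans hX12) t (hlev1 X₂ hXlow2 hXup2) (hlev X₂ hXlow2 hXup2)
    (fun _ => G) {t}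
    (by intro s hs; rw [mem_singleton] at hs; subst hs; exact mem_Icc.2 ⟨ht1, le_rfl⟩)
    (by intro s hs; rw [mem_singleton] at hs; subst hs; exact hc)
  rw [sum_singleton] at E1 E2
  have E1' := E1.trans (hErr X₁ hXlow1 hXup1)
  have E2' := E2.trans (hErr X₂ hXlow2 hXup2)
  -- the window
  have hWx₀ : x₀ ≤ B * t := by
    have : B * 1 ≤ B * t := Nat.mul_le_mul_left _ ht1
    omega
  have hX1W : X₁ ≤ 4 * (B * t) := by
    have : (X₁ : ℝ) ≤ 4 * (B * t) := by linarith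
    exact_mod_cast this
  have hP := hpnt (B * t) hWx₀ X₁ hX1W
  rw [← hX₂, ← pi1_eq, ← pi1_eq] at hP
  push_cast at hP
  have hlBt : Real.log ((B : ℝ) * t) ≤ 2 * Real.log B := by
    have h5 : (B : ℝ) * t ≤ (B : ℝ) ^ 2 := by
      rw [sq]; exact mul_le_mul_of_nonneg_left htB (by linarith)
    have h6 := Real.log_le_log (by positivity) h5
    rw [Real.log_pow] at h6
    exact_mod_cast h6
  have hlBt0 : 0 < Real.log ((B : ℝ) * t) := Real.log_pos (by linarith)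
  have ht0 : 0 < t := ht1
  have hφ : (0 : ℝ) < Nat.totient t := by exact_mod_cast Nat.totient_pos.2 ht0
  have hφt : (Nat.totient t : ℝ) ≤ t := by exact_mod_cast Nat.totient_le t
  have hmain : (3 / 8 : ℝ) * (B / Real.log B) ≤
      pi1 X₂ / (Nat.totient t : ℝ) - pi1 X₁ / (Nat.totient t : ℝ) := by
    rw [← sub_div, le_div_iff₀ hφ]
    refine le_trans ?_ hP
    calc (3 / 8 : ℝ) * (B / Real.log B) * (Nat.totient t : ℝ) ≤ 3 / 8 * (B / Real.log B) * t := by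
          gcongr
      _ = (3 / 4) * (B * t / (2 * Real.log B)) := by field_simp; norm_num
      _ ≤ (1 - 1 / 4) * (B * t / Real.log (B * t)) := by
          have : (1 - 1 / 4 : ℝ) = 3 / 4 := by norm_num
          rw [this]
          gcongr
  have h7 := to_b2 (t := t) (b1 := B) (M := 2 * B) (X₁ := X₁) (X₂ := X₂) (G := G) (c := G)
      ht0 (by rw [sub_self]; exact dvd_zero _) (by rw [hX1i]) (by rw [hX2i])
  have h8 : piAP X₂ t (G % t).toNat - piAP X₁ t (G % t).toNat ≤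
        ∑ b ∈ Ioc B (2 * B), pr (G + b * t) := by
    rw [piAP_diff X₁ X₂ t _ hX12]
    exact h7
  have h9 := (abs_le.1 E1').2
  have h10 := (abs_le.1 E2').1
  linarith

/-- **the upper bound for two forms** -/
theorem pairD : ∃ C : ℝ, 0 < C ∧ ∀ (B t₁ t₂ : ℕ) (G₁ G₂ : ℤ), 4 ≤ B → 1 ≤ t₁ → 1 ≤ t₂ →
    IsCoprime (t₁ : ℤ) G₁ → IsCoprime (t₂ : ℤ) G₂ → 0 ≤ G₁ + B * t₁ → 0 ≤ G₂ + B * t₂ →
    (t₁ : ℤ) * G₂ - (t₂ : ℤ) * G₁ ≠ 0 →
    ∑ b ∈ Ioc B (2 * B), pr (G₁ + b * t₁) * pr (G₂ + b * t₂) ≤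
      C * (GG t₁ * GG t₂ * GG ((t₁ : ℤ) * G₂ - (t₂ : ℤ) * G₁).natAbs) ^ 2 * (B / Real.log B ^ 2) := by
  obtain ⟨C₃, hC₃, hsv⟩ := sieve_two'
  refine ⟨C₃ * 4, by positivity, ?_⟩
  intro B t₁ t₂ G₁ G₂ hB ht₁ ht₂ hc₁ hc₂ hG₁ hG₂ hdet
  obtain ⟨hlB, hN2, _, hNl2⟩ := window_logs hB (le_refl B) (by omega)
  rw [ioc_image, sum_image (fun n _ m _ h => by
      have h' : B + n = B + m := h
      omega)]
  set N := 2 * B - B with hN
  have hlN : 0 ≤ Real.log N := Real.log_natCast_nonneg N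
  set e₁ : ℕ := (G₁ + B * t₁).toNat with he₁
  set e₂ : ℕ := (G₂ + B * t₂).toNat with he₂
  have hee₁ : ((e₁ : ℕ) : ℤ) = G₁ + B * t₁ := Int.toNat_of_nonneg hG₁
  have hee₂ : ((e₂ : ℕ) : ℤ) = G₂ + B * t₂ := Int.toNat_of_nonneg hG₂
  have hcop : ∀ (t e : ℕ) (G : ℤ), ((e : ℕ) : ℤ) = G + B * t → IsCoprime (t : ℤ) G →
      Nat.Coprime t e := by
    intro t e G h3 h6
    have h7 : IsCoprime (t : ℤ) ((e : ℕ) : ℤ) := by
      rw [h3]
      have := h6.add_mul_left_right (B : ℤ)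
      have e3 : G + t * (B : ℤ) = G + B * t := by ring
      rwa [e3] at this
    exact Nat.isCoprime_iff_coprime.1 h7
  have hcop₁ := hcop t₁ e₁ G₁ hee₁ hc₁
  have hcop₂ := hcop t₂ e₂ G₂ hee₂ hc₂
  have hkey : ((t₁ * e₂ : ℕ) : ℤ) - ((t₂ * e₁ : ℕ) : ℤ) = (t₁ : ℤ) * G₂ - (t₂ : ℤ) * G₁ := by
    push_cast
    rw [hee₁, hee₂]; ring
  have hne : t₁ * e₂ ≠ t₂ * e₁ := by
    intro h
    apply hdet
    rw [← hkey, h, sub_self]
  have h3 := hsv t₁ e₁ t₂ e₂ N (by omega) (by omega) hcop₁ hcop₂ hne hN2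
  rw [hkey] at h3
  rw [sum_pr_pr]
  have h4 : (Icc 1 N).filter (fun n : ℕ => (G₁ + ((B + n : ℕ) : ℤ) * t₁).toNat.Prime ∧
      (G₂ + ((B + n : ℕ) : ℤ) * t₂).toNat.Prime) =
      (Icc 1 N).filter (fun n => (t₁ * n + e₁).Prime ∧ (t₂ * n + e₂).Prime) := by
    apply filter_congr
    intro n _
    have h5 : G₁ + ((B + n : ℕ) : ℤ) * t₁ = ((t₁ * n + e₁ : ℕ) : ℤ) := by
      push_cast; rw [hee₁]; ring
    have h6 : G₂ + ((B + n : ℕ) : ℤ) * t₂ = ((t₂ * n + e₂ : ℕ) : ℤ) := by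
      push_cast; rw [hee₂]; ring
    rw [h5, h6, Int.toNat_natCast, Int.toNat_natCast]
  rw [h4]
  refine h3.trans ?_
  set v := ((t₁ : ℤ) * G₂ - (t₂ : ℤ) * G₁).natAbs with hv
  have h7 : GG (t₁ * t₂ * v) ≤ GG t₁ * GG t₂ * GG v := by
    calc GG (t₁ * t₂ * v) ≤ GG (t₁ * t₂) * GG v := GG_mul_le _ _
      _ ≤ (GG t₁ * GG t₂) * GG v := by
          apply mul_le_mul_of_nonneg_right (GG_mul_le _ _) (GG_nonneg _)
  have h8 : GG (t₁ * t₂ * v) ^ 2 ≤ (GG t₁ * GG t₂ * GG v) ^ 2 := pow_le_pow_left₀ (GG_nonneg _) h7 2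
  calc C₃ * GG (t₁ * t₂ * v) ^ 2 * N / Real.log N ^ 2
      = C₃ * GG (t₁ * t₂ * v) ^ 2 * (N / Real.log N ^ 2) := by ring
    _ ≤ C₃ * (GG t₁ * GG t₂ * GG v) ^ 2 * (4 * (B / Real.log B ^ 2)) := by gcongr
    _ = _ := by ring

end Pool.Agent.Helper74.OR
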