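import Mathlib
import Pool.Agent.Helper74.OR.Mom
import Pool.Agent.Helper74.OR.Single

/-! The second moment over the random coefficients. -/

set_option autoImplicit false

namespace Pool.Agent.Helper74.OR

open Finset Filter Topology
open Pool.Agent.Erdos456 Pool.Agent.Erdos456.Mert Pool.Agent.W218.HF Pool.Agent.W218.LF

/-- the value at `n` of the member `u` of the pencil -/
def vl (a b c d : ℤ) (n u : ℕ) : ℤ := (a + u * c) * n + (b + u * d)

theorem vl_eq {a b c d : ℤ} {n u t : ℕ} (ht : (t : ℤ) = c * n + d) :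
    vl a b c d n u = (a * n + b) + u * (t : ℤ) := by
  rw [ht]; unfold vl; ring

theorem GG_toNat_le (x : ℤ) (m : ℕ) (hm : 1 ≤ m) : GG x.toNat ^ m ≤ GG x.natAbs ^ m := by
  rcases le_or_gt x 0 with h | h
  · rw [Int.toNat_of_nonpos h, GG_zero, zero_pow (by omega)]
    exact pow_nonneg (GG_nonneg _) _
  · have : x.toNat = x.natAbs := by omega
    rw [this]

/-- moments of one linear form over the rough values -/
theorem momT (F : Finset (ℤ × ℤ)) (hF1 : ∀ f ∈ F, f.1 ≠ 0)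
    (hF2 : ∀ f ∈ F, ∀ g ∈ F, f ≠ g → f.1 * g.2 - g.1 * f.2 ≠ 0) (δ : ℝ) (hδ : 0 < δ) (m : ℕ)
    (hm : 1 ≤ m) (c d : ℤ) (hcd : c ≠ 0 ∨ d ≠ 0) :
    ∃ C : ℝ, 0 < C ∧ ∀ᶠ N : ℕ in atTop,
      ∑ n ∈ Rg F δ N, GG (c * n + d).toNat ^ m ≤ C * (N / Real.log N ^ F.card) := by
  classical
  obtain ⟨C, hC, h⟩ := rmom F hF1 hF2 δ hδ m hm
  set g : ℕ := if c = 0 then d.natAbs else c.natAbs with hg
  have hg0 : 0 < g := by
    rw [hg]
    split_ifs with h0
    · rcases hcd with h1 | h1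
      · exact absurd h0 h1
      · exact Int.natAbs_pos.2 h1
    · exact Int.natAbs_pos.2 h0
  have hGg : 1 ≤ GG g := one_le_GG hg0
  refine ⟨C * GG g ^ m, by positivity, ?_⟩
  filter_upwards [h, eventually_ge_atTop (c.natAbs + d.natAbs + 1)] with N hN hNb
  refine (sum_le_sum fun n _ => GG_toNat_le _ m hm).trans ?_
  apply hN (fun n => c * n + d) g hg0
  · intro n hn
    rw [mem_Icc] at hn
    have h1 : (c * (n : ℤ) + d).natAbs ≤ c.natAbs * N + d.natAbs := by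
      calc (c * (n : ℤ) + d).natAbs ≤ (c * (n : ℤ)).natAbs + d.natAbs := Int.natAbs_add_le _ _
        _ = c.natAbs * n + d.natAbs := by rw [Int.natAbs_mul, Int.natAbs_natCast]
        _ ≤ c.natAbs * N + d.natAbs := by gcongr; exact hn.2
    have h2 : c.natAbs * N + d.natAbs ≤ N ^ 2 := by
      have h3 : d.natAbs ≤ d.natAbs * N := Nat.le_mul_of_pos_right _ (by omega)
      calc c.natAbs * N + d.natAbs ≤ c.natAbs * N + d.natAbs * N := by omega
        _ = (c.natAbs + d.natAbs) * N := by ring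
        _ ≤ N * N := Nat.mul_le_mul_right _ (by omega)
        _ = N ^ 2 := by ring
    exact_mod_cast h1.trans h2
  · intro p hp hpg n n' h1 h2
    have h1' := Int.natCast_dvd.2 h1
    have h2' := Int.natCast_dvd.2 h2
    rw [hg] at hpg
    split_ifs at hpg with h0
    · exfalso
      apply hpg
      rw [h0] at h1'
      have e : (0 : ℤ) * (n : ℤ) + d = d := by ring
      rw [e] at h1'
      exact Int.natCast_dvd.1 h1'
    · rw [Nat.modEq_iff_dvd]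
      have h3 := dvd_sub h2' h1'
      have e : c * (n' : ℤ) + d - (c * (n : ℤ) + d) = c * ((n' : ℤ) - n) := by ring
      rw [e] at h3
      rcases (Nat.prime_iff_prime_int.1 hp).dvd_or_dvd h3 with h4 | h4
      · exact absurd (Int.natCast_dvd.1 h4) hpg
      · exact h4

/-- moments of the differences -/
theorem momD (F : Finset (ℤ × ℤ)) (hF1 : ∀ f ∈ F, f.1 ≠ 0)
    (hF2 : ∀ f ∈ F, ∀ g ∈ F, f ≠ g → f.1 * g.2 - g.1 * f.2 ≠ 0) (δ : ℝ) (hδ : 0 < δ) (m : ℕ)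
    (hm : 1 ≤ m) :
    ∃ C : ℝ, 0 < C ∧ ∀ᶠ N : ℕ in atTop, ∀ n₁ ∈ Icc 1 N,
      ∑ n ∈ Rg F δ N, GG ((n₁ : ℤ) - n).natAbs ^ m ≤ C * (N / Real.log N ^ F.card) := by
  classical
  obtain ⟨C, hC, h⟩ := rmom F hF1 hF2 δ hδ m hm
  refine ⟨C, hC, ?_⟩
  filter_upwards [h, eventually_ge_atTop 1] with N hN hNb n₁ hn₁
  have h1 := hN (fun n => (n₁ : ℤ) - n) 1 one_pos (by
    intro n hn
    rw [mem_Icc] at hn hn₁
    have h1 : ((n₁ : ℤ) - n).natAbs ≤ N := by omega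
    have h2 : N ≤ N ^ 2 := Nat.le_self_pow (by norm_num) N
    exact_mod_cast h1.trans h2) (by
    intro p hp _ n n' h1 h2
    have h1' := Int.natCast_dvd.2 h1
    have h2' := Int.natCast_dvd.2 h2
    rw [Nat.modEq_iff_dvd]
    have h3 := dvd_sub h1' h2'
    have e : (n₁ : ℤ) - n - ((n₁ : ℤ) - n') = (n' : ℤ) - n := by ring
    rwa [e] at h3)
  have e : GG 1 = 1 := by simp [GG]
  rw [e, one_pow, mul_one] at h1
  exact h1

theorem card_rg (F : Finset (ℤ × ℤ)) (hF1 : ∀ f ∈ F, f.1 ≠ 0)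
    (hF2 : ∀ f ∈ F, ∀ g ∈ F, f ≠ g → f.1 * g.2 - g.1 * f.2 ≠ 0) (δ : ℝ) (hδ : 0 < δ) :
    ∃ C : ℝ, 0 < C ∧ ∀ᶠ N : ℕ in atTop,
      ((Rg F δ N).card : ℝ) ≤ C * (N / Real.log N ^ F.card) := by
  obtain ⟨C, hC, h⟩ := rmom F hF1 hF2 δ hδ 1 le_rfl
  refine ⟨C, hC, ?_⟩
  filter_upwards [h, eventually_ge_atTop 1] with N hN hNb
  have h1 := hN (fun _ => 1) 1 one_pos (by
    intro n _
    have : (1 : ℝ) ≤ N := by exact_mod_cast hNb
    simp only [Int.natAbs_one, Nat.cast_one]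
    nlinarith) (by
    intro p hp _ n n' h1 _
    rw [Int.natAbs_one, Nat.dvd_one] at h1
    exact absurd h1 hp.one_lt.ne')
  have e : GG 1 = 1 := by simp [GG]
  simp only [Int.natAbs_one, e, one_pow, mul_one, sum_const, nsmul_eq_mul] at h1
  exact h1

/-- **the second moment** -/
theorem sec (F : Finset (ℤ × ℤ)) (hF1 : ∀ f ∈ F, f.1 ≠ 0)
    (hF2 : ∀ f ∈ F, ∀ g ∈ F, f ≠ g → f.1 * g.2 - g.1 * f.2 ≠ 0) (δ : ℝ) (hδ : 0 < δ)
    (k : ℕ) (hk : 1 ≤ k) (a b c d : Fin k → ℤ) (hdet : ∀ j, a j * d j - b j * c j ≠ 0)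
    (hcop : ∀ j, ∀ n : ℕ, IsCoprime (c j * n + d j) (a j * n + b j)) :
    ∃ C : ℝ, 0 < C ∧ ∀ᶠ N : ℕ in atTop, ∀ B : ℕ, 16 ≤ B → ∀ R ⊆ Rg F δ N,
      (∀ n ∈ R, ∀ j, 1 ≤ c j * n + d j ∧ 4 * (a j * n + b j).natAbs ≤ B) →
      ∑ u ∈ Fintype.piFinset (fun _ : Fin k => Ioc B (2 * B)),
        (∑ n ∈ R, ∏ j, pr (vl (a j) (b j) (c j) (d j) n (u j))) ^ 2 ≤
      C * ((N / Real.log N ^ F.card) * (B / Real.log B) ^ k +
        (N / Real.log N ^ F.card) ^ 2 * (B / Real.log B ^ 2) ^ k) := by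
  classical
  obtain ⟨C₄, hC₄, hpair⟩ := pairD
  obtain ⟨C₀, hC₀, h0⟩ := card_rg F hF1 hF2 δ hδ
  obtain ⟨C₃, hC₃, h3⟩ := momD F hF1 hF2 δ hδ (6 * k) (by omega)
  have hcd : ∀ j, c j ≠ 0 ∨ d j ≠ 0 := by
    intro j
    by_contra hcon
    push Not at hcon
    apply hdet j
    rw [hcon.1, hcon.2]; ring
  choose C₁ hC₁ h1 using fun j => momT F hF1 hF2 δ hδ k hk (c j) (d j) (hcd j)
  choose C₂ hC₂ h2 using fun j => momT F hF1 hF2 δ hδ (6 * k) (by omega) (c j) (d j) (hcd j)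
  set E : Fin k → ℝ := fun j => GG (a j * d j - b j * c j).natAbs ^ (6 * k) with hE
  have hE0 : ∀ j, 0 ≤ E j := fun j => pow_nonneg (GG_nonneg _) _
  refine ⟨40 ^ k * ∑ j, C₁ j + C₄ ^ k * ∑ j, (2 * (C₀ * C₂ j) + E j * (C₀ * C₃)), ?_, ?_⟩
  · have : Nonempty (Fin k) := ⟨⟨0, hk⟩⟩
    have g1 : 0 < ∑ j, C₁ j := sum_pos (fun j _ => hC₁ j) univ_nonempty
    have g2 : 0 ≤ ∑ j, (2 * (C₀ * C₂ j) + E j * (C₀ * C₃)) := sum_nonneg fun j _ => by
      have := hC₂ j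
      have := hE0 j
      positivity
    positivity
  filter_upwards [h0, h3, eventually_all.2 h1, eventually_all.2 h2, eventually_ge_atTop 3]
    with N h0 h3 h1 h2 hN3 B hB R hR hRj
  have hBr : (16 : ℝ) ≤ B := by exact_mod_cast hB
  have hlB0 : 0 < Real.log B := Real.log_pos (by linarith)
  have hNr : (3 : ℝ) ≤ N := by exact_mod_cast hN3
  have hlN0 : 0 < Real.log N := Real.log_pos (by linarith)
  have hkr : (1 : ℝ) ≤ k := by exact_mod_cast hk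
  set Q : ℝ := B / Real.log B ^ 2 with hQ
  have hQ0 : 0 ≤ Q := by positivity
  set Q1 : ℝ := B / Real.log B with hQ1
  have hQ10 : 0 ≤ Q1 := by positivity
  set M : ℝ := N / Real.log N ^ F.card with hM
  have hM0 : 0 ≤ M := by positivity
  have hRN : ∀ n ∈ R, n ∈ Icc 1 N := by
    intro n hn
    have := hR hn
    unfold Rg at this
    exact (mem_filter.1 this).1
  set t : Fin k → ℕ → ℕ := fun j n => (c j * n + d j).toNat with ht
  have htc : ∀ n ∈ R, ∀ j, ((t j n : ℕ) : ℤ) = c j * n + d j := by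
    intro n hn j
    exact Int.toNat_of_nonneg (by have := (hRj n hn j).1; linarith)
  have ht1 : ∀ n ∈ R, ∀ j, 1 ≤ t j n := by
    intro n hn j
    have h4 := htc n hn j
    have h5 := (hRj n hn j).1
    rw [← h4] at h5
    exact_mod_cast h5
  have hpos : ∀ n ∈ R, ∀ j, 0 ≤ (a j * n + b j) + (B : ℤ) * (t j n : ℤ) := by
    intro n hn j
    have h5 := (hRj n hn j).2
    have h6 : (1 : ℤ) ≤ t j n := by exact_mod_cast ht1 n hn j
    have h7 : (B : ℤ) ≤ B * (t j n : ℤ) := le_mul_of_one_le_right (Nat.cast_nonneg _) h6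
    omega
  -- expand
  have hexp : ∑ u ∈ Fintype.piFinset (fun _ : Fin k => Ioc B (2 * B)),
      (∑ n ∈ R, ∏ j, pr (vl (a j) (b j) (c j) (d j) n (u j))) ^ 2 =
      ∑ n₁ ∈ R, ∑ n₂ ∈ R, ∏ j, ∑ β ∈ Ioc B (2 * B),
        pr (vl (a j) (b j) (c j) (d j) n₁ β) * pr (vl (a j) (b j) (c j) (d j) n₂ β) := by
    have h1 : ∀ u : Fin k → ℕ, (∑ n ∈ R, ∏ j, pr (vl (a j) (b j) (c j) (d j) n (u j))) ^ 2 =
        ∑ n₁ ∈ R, ∑ n₂ ∈ R, ∏ j, (pr (vl (a j) (b j) (c j) (d j) n₁ (u j)) *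
          pr (vl (a j) (b j) (c j) (d j) n₂ (u j))) := by
      intro u
      rw [sq, sum_mul_sum]
      apply sum_congr rfl
      intro t₁ _
      apply sum_congr rfl
      intro t₂ _
      rw [prod_mul_distrib]
    rw [sum_congr rfl fun u _ => h1 u, sum_comm]
    apply sum_congr rfl
    intro t₁ _
    rw [sum_comm]
    apply sum_congr rfl
    intro t₂ _
    rw [Finset.prod_univ_sum]
  rw [hexp]
  have hoff : ∀ n₁ n₂ : ℕ, 0 ≤ (C₄ * Q) ^ k * ∑ j, (GG (t j n₁) ^ (6 * k) +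
      GG (t j n₂) ^ (6 * k) + E j * GG ((n₁ : ℤ) - n₂).natAbs ^ (6 * k)) := by
    intro n₁ n₂
    refine mul_nonneg (by positivity) (sum_nonneg fun j _ => ?_)
    have a1 := GG_nonneg (t j n₁)
    have a2 := GG_nonneg (t j n₂)
    have a3 := GG_nonneg ((n₁ : ℤ) - n₂).natAbs
    have a4 := hE0 j
    positivity
  have hterm : ∀ n₁ ∈ R, ∀ n₂ ∈ R, ∏ j, ∑ β ∈ Ioc B (2 * B),
        pr (vl (a j) (b j) (c j) (d j) n₁ β) * pr (vl (a j) (b j) (c j) (d j) n₂ β) ≤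
      (if n₁ = n₂ then (40 * Q1) ^ k * ∑ j, GG (t j n₁) ^ k else 0) +
      (C₄ * Q) ^ k * ∑ j, (GG (t j n₁) ^ (6 * k) +
        GG (t j n₂) ^ (6 * k) + E j * GG ((n₁ : ℤ) - n₂).natAbs ^ (6 * k)) := by
    intro n₁ hn₁ n₂ hn₂
    by_cases h12 : n₁ = n₂
    · subst h12
      rw [if_pos rfl]
      have h4 : ∏ j, ∑ β ∈ Ioc B (2 * B), pr (vl (a j) (b j) (c j) (d j) n₁ β) *
          pr (vl (a j) (b j) (c j) (d j) n₁ β) ≤ ∏ j : Fin k, (40 * Q1 * GG (t j n₁)) := by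
        apply Finset.prod_le_prod
        · intro j _
          exact sum_nonneg fun β _ => mul_nonneg (pr_nonneg _) (pr_nonneg _)
        · intro j _
          have h5 := single_count (by omega : 4 ≤ B) (le_refl B) (by omega) (ht1 n₁ hn₁ j)
            (hpos n₁ hn₁ j)
          refine le_trans (le_of_eq ?_) (h5.trans (le_of_eq ?_))
          · apply sum_congr rfl
            intro β _
            rw [pr_sq, vl_eq (htc n₁ hn₁ j)]
          · rw [hQ1]; ring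
      rw [prod_mul_distrib, prod_const, card_univ, Fintype.card_fin] at h4
      have h5 := prod_le_sum_pow hk (fun j => GG (t j n₁)) (fun j => GG_nonneg _)
      have h6 : 0 ≤ (40 * Q1) ^ k := by positivity
      have h7 := mul_le_mul_of_nonneg_left h5 h6
      have h8 := hoff n₁ n₁
      linarith
    · rw [if_neg h12, zero_add]
      have h4 : ∏ j, ∑ β ∈ Ioc B (2 * B), pr (vl (a j) (b j) (c j) (d j) n₁ β) *
          pr (vl (a j) (b j) (c j) (d j) n₂ β) ≤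
          ∏ j : Fin k, (C₄ * Q * (GG (t j n₁) * GG (t j n₂) *
            (GG (a j * d j - b j * c j).natAbs * GG ((n₁ : ℤ) - n₂).natAbs)) ^ 2) := by
        apply Finset.prod_le_prod
        · intro j _
          exact sum_nonneg fun β _ => mul_nonneg (pr_nonneg _) (pr_nonneg _)
        · intro j _
          have e1 : ((t j n₁ : ℕ) : ℤ) * (a j * n₂ + b j) - (t j n₂ : ℤ) * (a j * n₁ + b j) =
              -((a j * d j - b j * c j) * ((n₁ : ℤ) - n₂)) := by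
            rw [htc n₁ hn₁ j, htc n₂ hn₂ j]; ring
          have hne : ((t j n₁ : ℕ) : ℤ) * (a j * n₂ + b j) -
              (t j n₂ : ℤ) * (a j * n₁ + b j) ≠ 0 := by
            rw [e1, neg_ne_zero]
            apply mul_ne_zero (hdet j)
            intro h
            apply h12
            have : (n₁ : ℤ) = n₂ := by linarith
            exact_mod_cast this
          have h5 := hpair B (t j n₁) (t j n₂) (a j * n₁ + b j) (a j * n₂ + b j) (by omega)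
            (ht1 n₁ hn₁ j) (ht1 n₂ hn₂ j) (by rw [htc n₁ hn₁ j]; exact hcop j n₁)
            (by rw [htc n₂ hn₂ j]; exact hcop j n₂) (hpos n₁ hn₁ j) (hpos n₂ hn₂ j) hne
          have h6 : GG (((t j n₁ : ℕ) : ℤ) * (a j * n₂ + b j) -
              (t j n₂ : ℤ) * (a j * n₁ + b j)).natAbs ≤
              GG (a j * d j - b j * c j).natAbs * GG ((n₁ : ℤ) - n₂).natAbs := by
            rw [e1, Int.natAbs_neg, Int.natAbs_mul]
            exact GG_mul_le _ _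
          have g1 := GG_nonneg (t j n₁)
          have g2 := GG_nonneg (t j n₂)
          have g3 := GG_nonneg (((t j n₁ : ℕ) : ℤ) * (a j * n₂ + b j) -
              (t j n₂ : ℤ) * (a j * n₁ + b j)).natAbs
          calc ∑ β ∈ Ioc B (2 * B), pr (vl (a j) (b j) (c j) (d j) n₁ β) *
                pr (vl (a j) (b j) (c j) (d j) n₂ β)
              = ∑ β ∈ Ioc B (2 * B), pr ((a j * n₁ + b j) + β * (t j n₁ : ℤ)) *
                pr ((a j * n₂ + b j) + β * (t j n₂ : ℤ)) := by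
                apply sum_congr rfl
                intro β _
                rw [vl_eq (htc n₁ hn₁ j), vl_eq (htc n₂ hn₂ j)]
            _ ≤ _ := h5
            _ ≤ C₄ * (GG (t j n₁) * GG (t j n₂) *
                (GG (a j * d j - b j * c j).natAbs * GG ((n₁ : ℤ) - n₂).natAbs)) ^ 2 * Q := by
                gcongr
            _ = _ := by ring
      rw [prod_mul_distrib, prod_const, card_univ, Fintype.card_fin] at h4
      refine h4.trans ?_
      apply mul_le_mul_of_nonneg_left _ (by positivity)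
      refine (prod_le_sum_pow hk _ fun j => sq_nonneg _).trans ?_
      apply sum_le_sum
      intro j _
      refine (amgm_pow (GG_nonneg _) (GG_nonneg _)
        (mul_nonneg (GG_nonneg _) (GG_nonneg _)) k).trans (le_of_eq ?_)
      rw [mul_pow]
  have hS := sum_le_sum fun n₁ h₁ => sum_le_sum fun n₂ h₂ => hterm n₁ h₁ n₂ h₂
  refine hS.trans ?_
  -- sums over `R`
  have hRc : (R.card : ℝ) ≤ C₀ * M := (by exact_mod_cast card_le_card hR : (R.card : ℝ) ≤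
    (Rg F δ N).card).trans h0
  have hR1 : ∀ j, ∑ n ∈ R, GG (t j n) ^ k ≤ C₁ j * M := fun j =>
    (sum_le_sum_of_subset_of_nonneg hR fun n _ _ => pow_nonneg (GG_nonneg _) _).trans (h1 j)
  have hR2 : ∀ j, ∑ n ∈ R, GG (t j n) ^ (6 * k) ≤ C₂ j * M := fun j =>
    (sum_le_sum_of_subset_of_nonneg hR fun n _ _ => pow_nonneg (GG_nonneg _) _).trans (h2 j)
  have hR3 : ∀ n₁ ∈ R, ∑ n ∈ R, GG ((n₁ : ℤ) - n).natAbs ^ (6 * k) ≤ C₃ * M := fun n₁ hn₁ =>
    (sum_le_sum_of_subset_of_nonneg hR fun n _ _ => pow_nonneg (GG_nonneg _) _).trans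
      (h3 n₁ (hRN n₁ hn₁))
  have hA : ∑ n₁ ∈ R, ∑ n₂ ∈ R,
      (if n₁ = n₂ then (40 * Q1) ^ k * ∑ j, GG (t j n₁) ^ k else 0) ≤
      (40 * Q1) ^ k * ((∑ j, C₁ j) * M) := by
    have e : ∑ n₁ ∈ R, ∑ n₂ ∈ R,
      (if n₁ = n₂ then (40 * Q1) ^ k * ∑ j, GG (t j n₁) ^ k else 0) =
      (40 * Q1) ^ k * ∑ j, ∑ n₁ ∈ R, GG (t j n₁) ^ k := by
      rw [sum_comm (s := univ), mul_sum]
      apply sum_congr rfl
      intro n₁ hn₁
      rw [sum_ite_eq, if_pos hn₁]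
    rw [e, sum_mul]
    apply mul_le_mul_of_nonneg_left _ (by positivity)
    exact sum_le_sum fun j _ => hR1 j
  have hB' : ∑ n₁ ∈ R, ∑ n₂ ∈ R, (C₄ * Q) ^ k * ∑ j, (GG (t j n₁) ^ (6 * k) +
        GG (t j n₂) ^ (6 * k) + E j * GG ((n₁ : ℤ) - n₂).natAbs ^ (6 * k)) ≤
      (C₄ * Q) ^ k * ((∑ j, (2 * (C₀ * C₂ j) + E j * (C₀ * C₃))) * M ^ 2) := by
    simp only [← mul_sum]
    apply mul_le_mul_of_nonneg_left _ (by positivity)
    rw [sum3_comm R (fun n₁ n₂ j => GG (t j n₁) ^ (6 * k) +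
        GG (t j n₂) ^ (6 * k) + E j * GG ((n₁ : ℤ) - n₂).natAbs ^ (6 * k)), sum_mul]
    apply sum_le_sum
    intro j _
    simp only [sum_add_distrib, sum_const, nsmul_eq_mul, ← mul_sum]
    have g1 : (R.card : ℝ) * ∑ n ∈ R, GG (t j n) ^ (6 * k) ≤ (C₀ * M) * (C₂ j * M) := by
      have := hR2 j
      have g0 : 0 ≤ ∑ n ∈ R, GG (t j n) ^ (6 * k) :=
        sum_nonneg fun n _ => pow_nonneg (GG_nonneg _) _
      gcongr
    have g2 : ∑ n₁ ∈ R, ∑ n₂ ∈ R, GG ((n₁ : ℤ) - n₂).natAbs ^ (6 * k) ≤ (C₀ * M) * (C₃ * M) := by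
      calc ∑ n₁ ∈ R, ∑ n₂ ∈ R, GG ((n₁ : ℤ) - n₂).natAbs ^ (6 * k) ≤ ∑ _n₁ ∈ R, (C₃ * M) :=
            sum_le_sum fun n₁ hn₁ => hR3 n₁ hn₁
        _ = R.card * (C₃ * M) := by rw [sum_const, nsmul_eq_mul]
        _ ≤ _ := by gcongr
    have g3 := mul_le_mul_of_nonneg_left g2 (hE0 j)
    calc R.card * ∑ n ∈ R, GG (t j n) ^ (6 * k) + R.card * ∑ n ∈ R, GG (t j n) ^ (6 * k) +
          E j * ∑ n₁ ∈ R, ∑ n₂ ∈ R, GG ((n₁ : ℤ) - n₂).natAbs ^ (6 * k)
        ≤ (C₀ * M) * (C₂ j * M) + (C₀ * M) * (C₂ j * M) + E j * ((C₀ * M) * (C₃ * M)) := by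
          linarith
      _ = _ := by ring
  have hsplit : ∀ X Y : ℕ → ℕ → ℝ, ∑ n₁ ∈ R, ∑ n₂ ∈ R, (X n₁ n₂ + Y n₁ n₂) =
      ∑ n₁ ∈ R, ∑ n₂ ∈ R, X n₁ n₂ + ∑ n₁ ∈ R, ∑ n₂ ∈ R, Y n₁ n₂ := by
    intro X Y
    rw [← sum_add_distrib]
    apply sum_congr rfl
    intro n₁ _
    rw [← sum_add_distrib]
  rw [hsplit]
  refine (add_le_add hA hB').trans ?_
  have q1 : 0 ≤ ∑ j, C₁ j := sum_nonneg fun j _ => (hC₁ j).le
  have q2 : 0 ≤ ∑ j, (2 * (C₀ * C₂ j) + E j * (C₀ * C₃)) := sum_nonneg fun j _ => by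
    have := hC₂ j
    have := hE0 j
    positivity
  have q3 : 0 ≤ 40 ^ k * (∑ j, C₁ j) * (M ^ 2 * Q ^ k) := by positivity
  have q4 : 0 ≤ C₄ ^ k * (∑ j, (2 * (C₀ * C₂ j) + E j * (C₀ * C₃))) * (M * Q1 ^ k) := by positivity
  rw [mul_pow, mul_pow]
  linarith

end Pool.Agent.Helper74.OR
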