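import Mathlib
import Pool.Agent.Helper74.OR.Sec

/-! A positive proportion of the random coefficients. -/

set_option autoImplicit false

namespace Pool.Agent.Helper74.OR

open Finset Filter Topology
open Pool.Agent.Erdos456 Pool.Agent.Erdos456.Mert Pool.Agent.W218.HF Pool.Agent.W218.LF

open Classical in
/-- the number of the `n ∈ R` at which the members `u j` of all pencils are prime -/
noncomputable def cnR (R : Finset ℕ) {k : ℕ} (a b c d : Fin k → ℤ) (u : Fin k → ℕ) : ℕ :=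
  (R.filter (fun n => ∀ j, (vl (a j) (b j) (c j) (d j) n (u j)).toNat.Prime)).card

theorem cnR_eq (R : Finset ℕ) {k : ℕ} (a b c d : Fin k → ℤ) (u : Fin k → ℕ) :
    (cnR R a b c d u : ℝ) = ∑ n ∈ R, ∏ j, pr (vl (a j) (b j) (c j) (d j) n (u j)) := by
  classical
  unfold cnR
  rw [card_filter]
  push_cast
  apply sum_congr rfl
  intro n _
  by_cases h : ∀ j, (vl (a j) (b j) (c j) (d j) n (u j)).toNat.Prime
  · rw [if_pos h]
    symm
    apply prod_eq_one
    intro j _
    unfold pr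
    rw [if_pos (h j)]
  · rw [if_neg h]
    push Not at h
    obtain ⟨j, hj⟩ := h
    symm
    apply prod_eq_zero (mem_univ j)
    unfold pr
    rw [if_neg hj]

theorem pz {α : Type*} (U : Finset α) (f : α → ℝ) (m : ℝ) (hm : 0 ≤ m)
    (h1 : m * U.card ≤ ∑ u ∈ U, f u) [DecidablePred fun u => m / 2 ≤ f u] :
    (m * U.card / 2) ^ 2 ≤ ((U.filter (fun u => m / 2 ≤ f u)).card : ℝ) * ∑ u ∈ U, f u ^ 2 := by
  classical
  have h2 := sum_filter_add_sum_filter_not U (fun u => m / 2 ≤ f u) f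
  have h3 : ∑ u ∈ U.filter (fun u => ¬ m / 2 ≤ f u), f u ≤ m / 2 * U.card := by
    calc ∑ u ∈ U.filter (fun u => ¬ m / 2 ≤ f u), f u
        ≤ ∑ _u ∈ U.filter (fun u => ¬ m / 2 ≤ f u), m / 2 := by
          apply sum_le_sum
          intro u hu
          exact (not_le.1 (mem_filter.1 hu).2).le
      _ = (U.filter (fun u => ¬ m / 2 ≤ f u)).card * (m / 2) := by rw [sum_const, nsmul_eq_mul]
      _ ≤ U.card * (m / 2) := by
          have : ((U.filter (fun u => ¬ m / 2 ≤ f u)).card : ℝ) ≤ U.card := by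
            exact_mod_cast card_filter_le _ _
          gcongr
      _ = _ := by ring
  have h4 : m * U.card / 2 ≤ ∑ u ∈ U.filter (fun u => m / 2 ≤ f u), f u := by linarith
  have h5 : (∑ u ∈ U.filter (fun u => m / 2 ≤ f u), f u) ^ 2 ≤
      ((U.filter (fun u => m / 2 ≤ f u)).card : ℝ) *
        ∑ u ∈ U.filter (fun u => m / 2 ≤ f u), f u ^ 2 := sq_sum_le_card_mul_sum_sq
  have h6 : 0 ≤ m * U.card / 2 := by positivity
  calc (m * U.card / 2) ^ 2 ≤ (∑ u ∈ U.filter (fun u => m / 2 ≤ f u), f u) ^ 2 :=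
        pow_le_pow_left₀ h6 h4 2
    _ ≤ _ := h5
    _ ≤ _ := by
        apply mul_le_mul_of_nonneg_left _ (Nat.cast_nonneg _)
        exact sum_le_sum_of_subset_of_nonneg (filter_subset _ _) fun u _ _ => sq_nonneg _

theorem core (F : Finset (ℤ × ℤ)) (hF1 : ∀ f ∈ F, f.1 ≠ 0)
    (hF2 : ∀ f ∈ F, ∀ g ∈ F, f ≠ g → f.1 * g.2 - g.1 * f.2 ≠ 0) (δ : ℝ) (hδ : 0 < δ)
    (k : ℕ) (hk : 1 ≤ k) (a b c d : Fin k → ℤ) (hdet : ∀ j, a j * d j - b j * c j ≠ 0)
    (hpos : ∀ j, 0 < c j ∨ (c j = 0 ∧ 0 < d j))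
    (hcop : ∀ j, ∀ n : ℕ, IsCoprime (c j * n + d j) (a j * n + b j))
    (A : ℕ) (c₀ c₁ : ℝ) (hc₀ : 0 < c₀) (hc₁ : 0 < c₁) :
    ∃ κ : ℝ, 0 < κ ∧ ∀ᶠ N : ℕ in atTop, ∀ B : ℕ, (N : ℝ) ≤ Real.log B ^ A →
      c₁ * Real.log B ^ k ≤ N / Real.log N ^ F.card → ∀ R ⊆ Rg F δ N,
      (∀ n ∈ R, (N : ℝ) / 16 ≤ n) → c₀ * (N / Real.log N ^ F.card) ≤ R.card →
      κ * (B : ℝ) ^ k ≤ (({u ∈ Fintype.piFinset (fun _ : Fin k => Ioc B (2 * B)) |
        κ * (N / (Real.log N ^ F.card * Real.log B ^ k)) ≤ (cnR R a b c d u : ℝ)}.card : ℕ) : ℝ) := by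
  classical
  obtain ⟨C, hC, hsec⟩ := sec F hF1 hF2 δ hδ k hk a b c d hdet hcop
  obtain ⟨B0, hlow⟩ := low (2 * A)
  set κ₁ : ℝ := c₀ / (2 * 8 ^ k) with hκ₁
  set κ₂ : ℝ := c₀ ^ 2 / (4 * 64 ^ k * (C * (1 / c₁ + 1))) with hκ₂
  have hκ₁0 : 0 < κ₁ := by positivity
  have hκ₂0 : 0 < κ₂ := by positivity
  refine ⟨min κ₁ κ₂, lt_min hκ₁0 hκ₂0, ?_⟩
  have tN : Tendsto (fun N : ℕ => (N : ℝ)) atTop atTop := tendsto_natCast_atTop_atTop
  have e1 : ∀ᶠ B : ℕ in atTop, 4 * Real.log B ^ (2 * A) ≤ B := by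
    have h1 := (Real.isLittleO_pow_log_id_atTop (n := 2 * A)).bound
      (show (0 : ℝ) < 1 / 4 by positivity)
    filter_upwards [tN.eventually h1, eventually_ge_atTop 3] with B hB hB3
    have hlog : 0 ≤ Real.log (B : ℝ) := Real.log_natCast_nonneg B
    have hB0 : (0 : ℝ) ≤ B := Nat.cast_nonneg B
    rw [Real.norm_of_nonneg (by positivity), id, Real.norm_of_nonneg hB0] at hB
    linarith
  obtain ⟨B1, hB1⟩ := eventually_atTop.1 e1
  set B2 : ℕ := B0 + B1 + 16 with hB2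
  have e2 : ∀ᶠ N : ℕ in atTop, Real.log B2 ^ A < N := tN.eventually_gt_atTop _
  set V : ℕ := ∑ j, ((a j).natAbs + (b j).natAbs + (c j).natAbs + (d j).natAbs) with hV
  have hVj : ∀ j, (a j).natAbs + (b j).natAbs + (c j).natAbs + (d j).natAbs ≤ V := fun j =>
    Finset.single_le_sum (f := fun j => (a j).natAbs + (b j).natAbs + (c j).natAbs + (d j).natAbs)
      (fun _ _ => Nat.zero_le _) (mem_univ j)
  filter_upwards [hsec, e2, eventually_ge_atTop (16 * (V + 1) + 3)] with N hN hNB hNV B hNA hB R hR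
    hR16 hRc
  have hBB2 : B2 < B := by
    by_contra hcon
    push Not at hcon
    have h1 : Real.log B ≤ Real.log B2 := by
      rcases Nat.eq_zero_or_pos B with h | h
      · rw [h, Nat.cast_zero, Real.log_zero]; exact Real.log_natCast_nonneg _
      · exact Real.log_le_log (by exact_mod_cast h) (by exact_mod_cast hcon)
    have h2 := pow_le_pow_left₀ (Real.log_natCast_nonneg B) h1 A
    linarith
  have hB16 : 16 ≤ B := by omega
  have hBr : (16 : ℝ) ≤ B := by exact_mod_cast hB16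
  have hlB : 0 < Real.log B := Real.log_pos (by linarith)
  have hNr : (3 : ℝ) ≤ N := by exact_mod_cast (by omega : 3 ≤ N)
  have hlN : 0 < Real.log N := Real.log_pos (by linarith)
  have hN2A : (N : ℝ) ^ 2 ≤ Real.log B ^ (2 * A) := by
    calc (N : ℝ) ^ 2 ≤ (Real.log B ^ A) ^ 2 := pow_le_pow_left₀ (by linarith) hNA 2
      _ = _ := by rw [← pow_mul, mul_comm]
  have hN2B : 4 * N ^ 2 ≤ B := by
    have h1 := hB1 B (by omega)
    have : (4 : ℝ) * (N : ℝ) ^ 2 ≤ B := by linarith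
    exact_mod_cast this
  have hRN : ∀ n ∈ R, n ∈ Icc 1 N := by
    intro n hn
    have := hR hn
    unfold Rg at this
    exact (mem_filter.1 this).1
  have hlin : ∀ n ∈ R, ∀ x y : ℤ, x.natAbs + y.natAbs ≤ V → (x * n + y).natAbs ≤ N ^ 2 := by
    intro n hn x y hxy
    have h0 := mem_Icc.1 (hRN n hn)
    have h1 : (x * (n : ℤ) + y).natAbs ≤ x.natAbs * N + y.natAbs := by
      calc (x * (n : ℤ) + y).natAbs ≤ (x * (n : ℤ)).natAbs + y.natAbs := Int.natAbs_add_le _ _
        _ = x.natAbs * n + y.natAbs := by rw [Int.natAbs_mul, Int.natAbs_natCast]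
        _ ≤ x.natAbs * N + y.natAbs := by gcongr; exact h0.2
    have h3 : y.natAbs ≤ y.natAbs * N := Nat.le_mul_of_pos_right _ (by omega)
    calc (x * (n : ℤ) + y).natAbs ≤ x.natAbs * N + y.natAbs * N := by omega
      _ = (x.natAbs + y.natAbs) * N := by ring
      _ ≤ N * N := Nat.mul_le_mul_right _ (by omega)
      _ = N ^ 2 := by ring
  have hRj : ∀ n ∈ R, ∀ j, 1 ≤ c j * n + d j ∧ 4 * (a j * n + b j).natAbs ≤ B := by
    intro n hn j
    constructor
    · rcases hpos j with h1 | ⟨h1, h2⟩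
      · have h3 := hR16 n hn
        have h4 : N ≤ 16 * n := by
          have : (N : ℝ) ≤ 16 * n := by linarith
          exact_mod_cast this
        have h5 : (d j).natAbs ≤ V := by have := hVj j; omega
        have h6 : (n : ℤ) ≤ c j * n := le_mul_of_one_le_left (Nat.cast_nonneg _) h1
        omega
      · rw [h1]
        linarith
    · have h1 := hlin n hn (a j) (b j) (by have := hVj j; omega)
      omega
  have hsecN := hN B hB16 R hR hRj
  -- the first moment
  set U : Finset (Fin k → ℕ) := Fintype.piFinset (fun _ : Fin k => Ioc B (2 * B)) with hU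
  have hUc : (U.card : ℝ) = (B : ℝ) ^ k := by
    rw [hU, Fintype.card_piFinset]
    simp only [Nat.card_Ioc, prod_const, card_univ, Fintype.card_fin]
    have : 2 * B - B = B := by omega
    rw [this]
    push_cast
    rfl
  set f : (Fin k → ℕ) → ℝ := fun u => (cnR R a b c d u : ℝ) with hf
  set Q1 : ℝ := B / Real.log B with hQ1
  set M : ℝ := N / Real.log N ^ F.card with hM
  have hM0 : 0 < M := by positivity
  have hfirst : (R.card : ℝ) * ((1 / 8) * Q1) ^ k ≤ ∑ u ∈ U, f u := by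
    have e : ∑ u ∈ U, f u = ∑ n ∈ R, ∏ j, ∑ β ∈ Ioc B (2 * B),
        pr (vl (a j) (b j) (c j) (d j) n β) := by
      rw [hf]
      simp only [cnR_eq]
      rw [sum_comm]
      apply sum_congr rfl
      intro n _
      rw [hU, Finset.prod_univ_sum]
    rw [e]
    calc (R.card : ℝ) * ((1 / 8) * Q1) ^ k = ∑ _n ∈ R, ∏ _j : Fin k, ((1 / 8) * Q1) := by
          rw [sum_const, nsmul_eq_mul, prod_const, card_univ, Fintype.card_fin]
      _ ≤ _ := by
          apply sum_le_sum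
          intro n hn
          apply Finset.prod_le_prod
          · intro j _; positivity
          · intro j _
            obtain ⟨h1, h2⟩ := hRj n hn j
            set t : ℕ := (c j * n + d j).toNat with ht
            have htc : (t : ℤ) = c j * n + d j := Int.toNat_of_nonneg (by linarith)
            have ht1 : 1 ≤ t := by
              have : (1 : ℤ) ≤ t := by rw [htc]; exact h1
              exact_mod_cast this
            have htN : (t : ℝ) ≤ Real.log B ^ (2 * A) := by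
              have h3 := hlin n hn (c j) (d j) (by have := hVj j; omega)
              have h4 : t ≤ N ^ 2 := by omega
              have h5 : (t : ℝ) ≤ (N : ℝ) ^ 2 := by exact_mod_cast h4
              linarith
            have h6 := hlow B (by omega) t (a j * n + b j) ht1 htN h2 (by rw [htc]; exact hcop j n)
            refine h6.trans (le_of_eq ?_)
            apply sum_congr rfl
            intro β _
            rw [vl_eq htc]
  set m : ℝ := R.card * ((1 / 8) / Real.log B) ^ k with hm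
  have hm0 : 0 ≤ m := by positivity
  have hmB : m * U.card = R.card * ((1 / 8) * Q1) ^ k := by
    rw [hUc, hm, mul_assoc, ← mul_pow]
    congr 2
    rw [hQ1]; field_simp
  have hPZ := pz U f m hm0 (by rw [hmB]; exact hfirst)
  -- the second moment
  set Q : ℝ := B / Real.log B ^ 2 with hQ
  have hQ0 : 0 < Q := by positivity
  have hQQ : Q1 ^ k = Real.log B ^ k * Q ^ k := by
    rw [← mul_pow]; congr 1; rw [hQ1, hQ]; field_simp
  have hQQ2 : (Q1 ^ k) ^ 2 = (B : ℝ) ^ k * Q ^ k := by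
    rw [← pow_mul, mul_comm k 2, pow_mul, ← mul_pow]; congr 1; rw [hQ1, hQ]; field_simp
  have hsec2 : ∑ u ∈ U, f u ^ 2 ≤ C * (1 / c₁ + 1) * (M ^ 2 * Q ^ k) := by
    have e : ∑ u ∈ U, f u ^ 2 = ∑ u ∈ U,
        (∑ n ∈ R, ∏ j, pr (vl (a j) (b j) (c j) (d j) n (u j))) ^ 2 := by
      apply sum_congr rfl
      intro u _
      rw [hf]
      simp only [cnR_eq]
    rw [e]
    refine hsecN.trans ?_
    have h1 : Real.log B ^ k ≤ M / c₁ := by
      rw [le_div_iff₀ hc₁]; linarith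
    calc C * (M * Q1 ^ k + M ^ 2 * Q ^ k) = C * (M * (Real.log B ^ k * Q ^ k) + M ^ 2 * Q ^ k) := by
          rw [hQQ]
      _ ≤ C * (M * (M / c₁ * Q ^ k) + M ^ 2 * Q ^ k) := by gcongr
      _ = _ := by field_simp
  set G : Finset (Fin k → ℕ) := U.filter (fun u => m / 2 ≤ f u) with hG
  have hlowm : c₀ * M * ((1 / 8) * Q1) ^ k / 2 ≤ m * U.card / 2 := by
    rw [hmB]
    have : 0 ≤ ((1 / 8) * Q1) ^ k := by positivity
    gcongr
  have hGc : κ₂ * (B : ℝ) ^ k ≤ G.card := by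
    have h1 : (c₀ * M * ((1 / 8) * Q1) ^ k / 2) ^ 2 ≤
        G.card * (C * (1 / c₁ + 1) * (M ^ 2 * Q ^ k)) := by
      calc (c₀ * M * ((1 / 8) * Q1) ^ k / 2) ^ 2 ≤ (m * U.card / 2) ^ 2 :=
            pow_le_pow_left₀ (by positivity) hlowm 2
        _ ≤ _ := hPZ
        _ ≤ _ := by gcongr
    have h2 : (c₀ * M * ((1 / 8) * Q1) ^ k / 2) ^ 2 =
        (κ₂ * (B : ℝ) ^ k) * (C * (1 / c₁ + 1) * (M ^ 2 * Q ^ k)) := by
      have e : (c₀ * M * ((1 / 8) * Q1) ^ k / 2) ^ 2 =
          c₀ ^ 2 * M ^ 2 * (((1 / 8 : ℝ) ^ k) ^ 2 * (Q1 ^ k) ^ 2) / 4 := by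
        rw [mul_pow]; ring
      have e8 : ((1 / 8 : ℝ) ^ k) ^ 2 = 1 / 64 ^ k := by
        have e9 : ((1 / 8 : ℝ)) ^ 2 = 1 / 64 := by norm_num
        rw [← pow_mul, mul_comm k 2, pow_mul, e9, one_div_pow]
      rw [e, e8, hQQ2, hκ₂]
      field_simp
    rw [h2] at h1
    exact le_of_mul_le_mul_right h1 (by positivity)
  have hsub : G ⊆ {u ∈ U | min κ₁ κ₂ * (N / (Real.log N ^ F.card * Real.log B ^ k)) ≤
      (cnR R a b c d u : ℝ)} := by
    intro u hu
    obtain ⟨h1, h2⟩ := mem_filter.1 hu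
    refine mem_filter.2 ⟨h1, le_trans ?_ h2⟩
    have e : (N : ℝ) / (Real.log N ^ F.card * Real.log B ^ k) = M / Real.log B ^ k := by
      rw [hM, div_div]
    rw [e]
    have h3 : m / 2 = (R.card : ℝ) / (2 * 8 ^ k) / Real.log B ^ k := by
      rw [hm, div_pow, one_div_pow]; field_simp
    rw [h3]
    calc min κ₁ κ₂ * (M / Real.log B ^ k) ≤ κ₁ * (M / Real.log B ^ k) := by
          gcongr
          exact min_le_left _ _
      _ = c₀ * M / (2 * 8 ^ k) / Real.log B ^ k := by rw [hκ₁]; ring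
      _ ≤ _ := by gcongr
  calc min κ₁ κ₂ * (B : ℝ) ^ k ≤ κ₂ * (B : ℝ) ^ k := by
        gcongr
        exact min_le_right _ _
    _ ≤ G.card := hGc
    _ ≤ _ := by exact_mod_cast card_le_card hsub

end Pool.Agent.Helper74.OR
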