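import Mathlib
import Pool.Agent.Helper74.OR.Core
import Pool.Graph.R_seed8.Y827.RO.NarF

/-! Fixed forms in many classes together with random members of pencils of forms. -/

set_option autoImplicit false

namespace Pool.Agent.Helper74.OR

open Finset Filter Topology
open Pool.Agent.Y827.GS Pool.Agent.Y827.RO

theorem np_of {f g : ℤ × ℤ} (hf : 0 < f.1 ∧ IsCoprime f.1 f.2) (hg : 0 < g.1 ∧ IsCoprime g.1 g.2)
    (h : f ≠ g) : f.1 * g.2 - g.1 * f.2 ≠ 0 := by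
  intro h0
  have he : f.1 * g.2 = g.1 * f.2 := by linarith
  have h1 : f.1 ∣ g.1 := hf.2.dvd_of_dvd_mul_right (by rw [← he]; exact dvd_mul_right _ _)
  have h2 : g.1 ∣ f.1 := hg.2.dvd_of_dvd_mul_right (by rw [he]; exact dvd_mul_right _ _)
  have h3 : f.1 = g.1 := Int.dvd_antisymm hf.1.le hg.1.le h1 h2
  rw [h3] at he
  exact h (Prod.ext h3 (mul_left_cancel₀ hg.1.ne' he).symm)

open Classical in
theorem base (T : ℕ) (hT : 1 ≤ T) : ∃ K : ℕ, 1 ≤ K ∧ ∀ f : Fin T → Fin K → ℤ × ℤ,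
    Function.Injective (fun x : Fin T × Fin K => f x.1 x.2) →
    (∀ g i, 0 < (f g i).1 ∧ IsCoprime (f g i).1 (f g i).2) →
    (∀ p : ℕ, p.Prime → p ≤ T * K → ∃ r : ℤ, ∀ g i, ¬ (p : ℤ) ∣ (f g i).1 * r + (f g i).2) →
    ∀ (k : ℕ), 1 ≤ k → ∀ (a b c d : Fin k → ℤ), (∀ j, a j * d j - b j * c j ≠ 0) →
    (∀ j, 0 < c j ∨ (c j = 0 ∧ 0 < d j)) →
    (∀ j, ∀ n : ℕ, IsCoprime (c j * n + d j) (a j * n + b j)) →
    ∀ (A : ℕ) (c₁ : ℝ), 0 < c₁ → ∃ κ : ℝ, 0 < κ ∧ ∀ᶠ N : ℕ in atTop, ∀ B : ℕ,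
      (N : ℝ) ≤ Real.log B ^ A → c₁ * Real.log B ^ k ≤ N / Real.log N ^ (T * K + 1) →
      ∃ (S : Finset (Fin T)) (σ : Fin T → Fin K), (T : ℝ) ≤ (18 / 5) * (S.card : ℝ) ∧
        κ * (B : ℝ) ^ k ≤ (({u ∈ Fintype.piFinset (fun _ : Fin k => Ioc B (2 * B)) |
          κ * (N / (Real.log N ^ (T * K + 1) * Real.log B ^ k)) ≤
            ((((Icc 1 N).filter (fun n : ℕ =>
              (∀ g ∈ S, ((f g (σ g)).1 * (n : ℤ) + (f g (σ g)).2).toNat.Prime) ∧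
              ∀ j, (vl (a j) (b j) (c j) (d j) n (u j)).toNat.Prime)).card : ℕ) : ℝ)}.card : ℕ) : ℝ) := by
  obtain ⟨M, hM1, hM2⟩ := ceilM T hT
  obtain ⟨K, hK, δ, hδ, H0⟩ := lamR0 T M hT hM1
  refine ⟨K, hK, fun f hinj hpos hloc k hk a b c d hdet hcpos hcop A c₁ hc₁ => ?_⟩
  obtain ⟨A₀, hA₀⟩ := adf_ev (univ.image (fun x : Fin T × Fin K => f x.1 x.2)) (by
    intro g hg
    obtain ⟨x, -, rfl⟩ := mem_image.1 hg
    exact hpos x.1 x.2)
  obtain ⟨s₀, c₀, hc₀, H1⟩ := H0 A₀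
  set V : Finset (ℤ × ℤ) := univ.image (fun x : Fin T × Fin K => f x.1 x.2) with hV
  have hVc : V.card = T * K := by
    rw [hV, card_image_of_injective _ hinj, card_univ, Fintype.card_prod, Fintype.card_fin,
      Fintype.card_fin]
  have hVm : ∀ x ∈ V, 0 < x.1 ∧ IsCoprime x.1 x.2 := by
    intro g hg
    obtain ⟨x, -, rfl⟩ := mem_image.1 hg
    exact hpos x.1 x.2
  have hVf : ∀ g i, f g i ∈ V := fun g i => mem_image.2 ⟨(g, i), mem_univ _, rfl⟩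
  set Fs : ℕ → Finset (ℤ × ℤ) := fun s => insert ((1 : ℤ), -(s : ℤ)) V with hFs
  set Cs : ℕ → Prop := fun s => ∀ g i, (f g i).2 + (f g i).1 * s ≠ 0 with hCs
  have hFs1 : ∀ s, Cs s → (Fs s).card = T * K + 1 ∧ (∀ x ∈ Fs s, x.1 ≠ 0) ∧
      ∀ x ∈ Fs s, ∀ y ∈ Fs s, x ≠ y → x.1 * y.2 - y.1 * x.2 ≠ 0 := by
    intro s hs
    have hVs : ∀ x ∈ V, x.2 + x.1 * s ≠ 0 := by
      intro x hx
      obtain ⟨z, -, rfl⟩ := mem_image.1 hx
      exact hs z.1 z.2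
    have hnot : ((1 : ℤ), -(s : ℤ)) ∉ V := by
      intro h
      apply hVs _ h
      simp
    refine ⟨by rw [hFs]; simp only; rw [card_insert_of_notMem hnot, hVc], ?_, ?_⟩
    · intro x hx
      rcases mem_insert.1 hx with rfl | hx
      · exact one_ne_zero
      · exact (hVm x hx).1.ne'
    · intro x hx y hy hxy
      rcases mem_insert.1 hx with rfl | hx <;> rcases mem_insert.1 hy with rfl | hy
      · exact absurd rfl hxy
      · have := hVs y hy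
        intro h0
        apply this
        simp only at h0
        linarith
      · have := hVs x hx
        intro h0
        apply this
        simp only at h0
        linarith
      · exact np_of (hVm x hx) (hVm y hy) hxy
  -- the constants
  have hcore : ∀ s : ℕ, ∃ κ : ℝ, 0 < κ ∧ (Cs s → ∀ᶠ N : ℕ in atTop, ∀ B : ℕ,
      (N : ℝ) ≤ Real.log B ^ A → c₁ * Real.log B ^ k ≤ N / Real.log N ^ (T * K + 1) →
      ∀ R ⊆ Rg (Fs s) δ N,
      (∀ n ∈ R, (N : ℝ) / 16 ≤ n) → c₀ * (N / Real.log N ^ (T * K + 1)) ≤ R.card →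
      κ * (B : ℝ) ^ k ≤ (({u ∈ Fintype.piFinset (fun _ : Fin k => Ioc B (2 * B)) |
        κ * (N / (Real.log N ^ (T * K + 1) * Real.log B ^ k)) ≤
          (cnR R a b c d u : ℝ)}.card : ℕ) : ℝ)) := by
    intro s
    by_cases hs : Cs s
    · obtain ⟨h1, h2, h3⟩ := hFs1 s hs
      obtain ⟨κ, hκ, h⟩ := core (Fs s) h2 h3 δ hδ k hk a b c d hdet hcpos hcop A c₀ c₁ hc₀ hc₁
      rw [h1] at h
      exact ⟨κ, hκ, fun _ => h⟩
    · exact ⟨1, one_pos, fun h => absurd h hs⟩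
  choose κs hκs hcs using hcore
  have hne : (range (s₀ + 1)).Nonempty := ⟨0, mem_range.2 (Nat.succ_pos _)⟩
  set κ : ℝ := (range (s₀ + 1)).inf' hne κs with hκ
  have hκ0 : 0 < κ := by rw [hκ, Finset.lt_inf'_iff]; exact fun s _ => hκs s
  have hκle : ∀ s ≤ s₀, κ ≤ κs s := fun s hs =>
    Finset.inf'_le _ (mem_range.2 (by omega))
  refine ⟨κ, hκ0, ?_⟩
  have h3 : ∀ᶠ N : ℕ in atTop, ∀ s ∈ range (s₀ + 1), Cs s → ∀ B : ℕ,
      (N : ℝ) ≤ Real.log B ^ A → c₁ * Real.log B ^ k ≤ N / Real.log N ^ (T * K + 1) →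
      ∀ R ⊆ Rg (Fs s) δ N,
      (∀ n ∈ R, (N : ℝ) / 16 ≤ n) → c₀ * (N / Real.log N ^ (T * K + 1)) ≤ R.card →
      κs s * (B : ℝ) ^ k ≤ (({u ∈ Fintype.piFinset (fun _ : Fin k => Ioc B (2 * B)) |
        κs s * (N / (Real.log N ^ (T * K + 1) * Real.log B ^ k)) ≤
          (cnR R a b c d u : ℝ)}.card : ℕ) : ℝ) := by
    rw [Filter.eventually_all_finset]
    intro s _
    by_cases hs : Cs s
    · filter_upwards [hcs s hs] with N hN _ using hN
    · exact Eventually.of_forall fun N h => absurd h hs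
  filter_upwards [H1, hA₀, h3, eventually_ge_atTop 1] with N hN hAN hN3 hN1 B hB1 hB2
  obtain ⟨s, S, σ, hs, hs1, hs2, hS, hcard⟩ := hN f hinj (fun g i => hAN _ (hVf g i)) hloc
  refine ⟨S, σ, hM2.trans (mul_le_mul_of_nonneg_left (by exact_mod_cast hS) (by norm_num)), ?_⟩
  have hCs' : Cs s := hs1
  have hsub : Rs f δ s S σ N ⊆ Rg (Fs s) δ N := by
    intro n hn
    unfold Rs at hn
    obtain ⟨h4, h5, h6, h7, h8⟩ := mem_filter.1 hn
    unfold Rg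
    refine mem_filter.2 ⟨h4, ?_⟩
    intro x hx p hp hpl hd
    rcases mem_insert.1 hx with rfl | hx
    · apply h6 p hp hpl
      simp only [one_mul] at hd
      rwa [← sub_eq_add_neg] at hd
    · obtain ⟨z, -, rfl⟩ := mem_image.1 hx
      exact h7 z.1 z.2 p hp hpl hd
  have h4 := hN3 s (mem_range.2 (by omega)) hCs' B hB1 hB2 (Rs f δ s S σ N) hsub (by
    intro n hn
    unfold Rs at hn
    exact (mem_filter.1 hn).2.1) hcard
  have hB0 : (0 : ℝ) ≤ (B : ℝ) ^ k := by positivity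
  refine (mul_le_mul_of_nonneg_right (hκle s hs) hB0).trans (h4.trans ?_)
  rw [Nat.cast_le]
  apply card_le_card
  intro u hu
  obtain ⟨h5, h6⟩ := mem_filter.1 hu
  refine mem_filter.2 ⟨h5, ?_⟩
  have hlogN : 0 ≤ Real.log N := Real.log_natCast_nonneg N
  have hlogB : 0 ≤ Real.log B := Real.log_natCast_nonneg B
  have h7 : 0 ≤ (N : ℝ) / (Real.log N ^ (T * K + 1) * Real.log B ^ k) := by positivity
  refine (mul_le_mul_of_nonneg_right (hκle s hs) h7).trans (h6.trans ?_)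
  rw [Nat.cast_le]
  unfold cnR
  apply card_le_card
  intro n hn
  obtain ⟨h8, h9⟩ := mem_filter.1 hn
  unfold Rs at h8
  obtain ⟨g1, g2, g3, g4, g5⟩ := mem_filter.1 h8
  exact mem_filter.2 ⟨g1, g5, h9⟩

end Pool.Agent.Helper74.OR
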